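import Pool.Agent.Hhelper65.PC.Contr

/-!
# Part C: conclusion
-/

set_option linter.unusedSectionVars false

namespace Pool.Agent.Hhelper65.PC

open Pool.Agent.Hhelper8

universe u v w

section gen

/-- cancellation of nonzero natural numbers in an algebra over a field of characteristic zero -/
lemma nat_cancel (F : Type*) [Field F] [CharZero F] {R : Type*} [CommRing R] [Algebra F R] {m : ℕ}
    (hm : m ≠ 0) {r : R} (h : (m : R) * r = 0) : r = 0 := by
  have hm' : (m : F) ≠ 0 := Nat.cast_ne_zero.mpr hm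
  have e : (1 : R) = algebraMap F R ((m : F)⁻¹) * (m : R) := by
    rw [← map_natCast (algebraMap F R) m, ← map_mul, inv_mul_cancel₀ hm', map_one]
  rw [← one_mul r, e, mul_assoc, h, mul_zero]

lemma normA {R V : Type*} [CommRing R] [AddCommGroup V] [Module R V] (A : VPA R V) {u v : V}
    (huv : A.form u v = 0) : A.form (A.mul u v) (A.mul u v) = A.form u u * A.form v v := by
  rw [A.inv, anti A v (A.mul u v), mul_mul_self, huv]
  simp only [map_neg, map_sub, map_smul, smul_eq_mul]
  ring

lemma Pr_self {R V : Type*} [CommRing R] [AddCommGroup V] [Module R V] (A : VPA R V)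
    {q c1 c2 c3 : R} {e1 e2 e3 : V} (o12 : A.form e1 e2 = 0) (o13 : A.form e1 e3 = 0)
    (o23 : A.form e2 e3 = 0) (s1 : c1 ^ 2 * A.form e1 e1 = q * c1)
    (s2 : c2 ^ 2 * A.form e2 e2 = q * c2) (s3 : c3 ^ 2 * A.form e3 e3 = q * c3) (w : V) :
    A.form (Pr A q c1 c2 c3 e1 e2 e3 w) (Pr A q c1 c2 c3 e1 e2 e3 w) =
      q * NN A q c1 c2 c3 e1 e2 e3 w := by
  have o21 : A.form e2 e1 = 0 := by rw [A.symm]; exact o12
  have o31 : A.form e3 e1 = 0 := by rw [A.symm]; exact o13
  have o32 : A.form e3 e2 = 0 := by rw [A.symm]; exact o23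
  unfold Pr NN
  simp only [map_sub, map_smul, LinearMap.sub_apply, LinearMap.smul_apply, smul_eq_mul, o12, o13,
    o23, o21, o31, o32, A.symm e1 w, A.symm e2 w, A.symm e3 w]
  linear_combination (A.form w e1) ^ 2 * s1 + (A.form w e2) ^ 2 * s2 + (A.form w e3) ^ 2 * s3

variable {F : Type*} [Field F] [CharZero F] {ι : Type*} (f : FreeMagma ι →₀ F)

/-- the value of `f` -/
noncomputable def val {R V : Type*} [CommRing R] [Algebra F R] [AddCommGroup V] [Module R V]
    (A : VPA R V) (x : ι → V) : V := evP R (fun x y => A.mul x y) f x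

variable {R V : Type*} [CommRing R] [Algebra F R] [AddCommGroup V] [Module R V] {A : VPA R V}
  {R1 V1 R2 V2 : Type*} [CommRing R1] [Algebra F R1] [AddCommGroup V1] [Module R1 V1]
    [CommRing R2] [Algebra F R2] [AddCommGroup V2] [Module R2 V2]

/-- compatibility of the extension with the algebra structures -/
def Comp (F : Type*) [Field F] {R V : Type*} [CommRing R] [Algebra F R] [AddCommGroup V]
    [Module R V] {A : VPA R V} {R1 V1 : Type*} [CommRing R1] [Algebra F R1] [AddCommGroup V1]
    [Module R1 V1] (S : SqData A R1 V1) : Prop :=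
  ∀ c : F, S.i (algebraMap F R c) = algebraMap F R1 c

lemma sq_val (S : SqData A R1 V1) (hS : Comp F S) (x : ι → V) :
    val f S.A' (fun i => S.j (x i)) = S.j (val f A x) := by
  have := evP_map (F := F) S.i hS S.j S.j_smul
    (fun x y => A.mul x y) (fun x y => S.A'.mul x y) S.j_mul f x
  exact this.symm

variable (S1 : SqData A R1 V1) (S2 : SqData S1.A' R2 V2) (h1 : Comp F S1) (h2 : Comp F S2)

include h1 h2

/-- one descent step -/
theorem descend (x : ι → V) (z : V) {q c1 c2 c3 : R} {e1 e2 e3 : V} (w : V) {ρ : ℕ} (hρ0 : ρ ≠ 0)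
    (o12 : A.form e1 e2 = 0) (o13 : A.form e1 e3 = 0)
    (o23 : A.form e2 e3 = 0) (s1 : c1 ^ 2 * A.form e1 e1 = q * c1)
    (s2 : c2 ^ 2 * A.form e2 e2 = q * c2) (s3 : c3 ^ 2 * A.form e3 e3 = q * c3)
    (hρ : c1 * A.form e1 e1 + c2 * A.form e2 e2 + c3 * A.form e3 e3 + ρ * q = 7 * q) (k n : ℕ)
    (hyp : S2.i (S1.i q) ^ k *
      NN S2.A' (S2.i (S1.i q)) (S2.i (S1.i c1)) (S2.i (S1.i c2)) (S2.i (S1.i c3))
        (S2.j (S1.j e1)) (S2.j (S1.j e2)) (S2.j (S1.j e3)) (S2.j (S1.j w + S1.U) + S2.U) ^ (n + 1) *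
      S2.A'.form (val f S2.A' (fun i => S2.j (S1.j (x i)))) (S2.j (S1.j z)) = 0) :
    q ^ (k + 1) * NN A q c1 c2 c3 e1 e2 e3 w ^ n * A.form (val f A x) z = 0 := by
  rw [sq_val f S2 h2, sq_val f S1 h1, SqData.j_form, SqData.j_form] at hyp
  have h1 := contraction S1 S2 q c1 c2 c3 e1 e2 e3 w
    (q ^ k * A.form (val f A x) z) ρ n hρ (Pr_self A o12 o13 o23 s1 s2 s3 w) (by
      rw [← hyp, map_mul, map_mul, map_pow, map_pow]
      ring)
  apply nat_cancel F (m := 2 * (n + 1) * (ρ + 2 * n)) (by positivity)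
  rw [← h1]
  push_cast
  ring

omit h1 h2

/-- statement of type (a) -/
def StA {R V : Type*} [CommRing R] [Algebra F R] [AddCommGroup V] [Module R V] (A : VPA R V)
    (k n : ℕ) : Prop := ∀ (x : ι → V) (z u v w : V), A.form u v = 0 →
  (A.form u u * A.form v v) ^ k * NN A (A.form u u * A.form v v) (A.form v v) (A.form u u) 1 u v
    (A.mul u v) w ^ n * A.form (val f A x) z = 0

/-- statement of type (b) -/
def StB {R V : Type*} [CommRing R] [Algebra F R] [AddCommGroup V] [Module R V] (A : VPA R V)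
    (k n : ℕ) : Prop := ∀ (x : ι → V) (z u w : V),
  (A.form u u) ^ k * NN A (A.form u u) 1 0 0 u 0 0 w ^ n * A.form (val f A x) z = 0

/-- statement of type (c) -/
def StC {R V : Type*} [CommRing R] [Algebra F R] [AddCommGroup V] [Module R V] (A : VPA R V)
    (k n : ℕ) : Prop := ∀ (x : ι → V) (z w : V),
  (1 : R) ^ k * NN A 1 0 0 0 0 0 0 w ^ n * A.form (val f A x) z = 0

include h1 h2

lemma StA_step {k n : ℕ} (h : StA f S2.A' k (n + 1)) : StA f A (k + 1) n := by
  intro x z u v w huv
  have g1 : A.form u (A.mul u v) = 0 := by rw [A.symm, form_self_left]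
  have g2 : A.form v (A.mul u v) = 0 := by rw [A.symm, form_self_right]
  have g3 := normA A huv
  have k1 : A.form v v ^ 2 * A.form u u = A.form u u * A.form v v * A.form v v := by ring
  have k2 : A.form u u ^ 2 * A.form v v = A.form u u * A.form v v * A.form u u := by ring
  have k3 : (1 : R) ^ 2 * A.form (A.mul u v) (A.mul u v) = A.form u u * A.form v v * 1 := by
    rw [g3]; ring
  have k4 : A.form v v * A.form u u + A.form u u * A.form v v +
      1 * A.form (A.mul u v) (A.mul u v) + ((4 : ℕ) : R) * (A.form u u * A.form v v) =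
      7 * (A.form u u * A.form v v) := by
    rw [g3]; push_cast; ring
  refine descend f S1 S2 h1 h2 x z (q := A.form u u * A.form v v) (c1 := A.form v v)
    (c2 := A.form u u) (c3 := 1) (e1 := u) (e2 := v) (e3 := A.mul u v) w (ρ := 4) (by norm_num)
    huv g1 g2 k1 k2 k3 k4 k n ?_
  have h3 := h (fun i => S2.j (S1.j (x i))) (S2.j (S1.j z)) (S2.j (S1.j u)) (S2.j (S1.j v))
    (S2.j (S1.j w + S1.U) + S2.U) (by rw [SqData.j_form, SqData.j_form, huv, map_zero, map_zero])
  rw [SqData.j_form, SqData.j_form, SqData.j_form, SqData.j_form, ← SqData.j_mul,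
    ← SqData.j_mul, ← map_mul, ← map_mul] at h3
  rw [map_one, map_one]
  exact h3

lemma StB_step {k n : ℕ} (h : StB f S2.A' k (n + 1)) : StB f A (k + 1) n := by
  intro x z u w
  have k1 : (1 : R) ^ 2 * A.form u u = A.form u u * 1 := by ring
  have k2 : (0 : R) ^ 2 * A.form (0 : V) 0 = A.form u u * 0 := by ring
  have k4 : 1 * A.form u u + 0 * A.form (0 : V) 0 +
      0 * A.form (0 : V) 0 + ((6 : ℕ) : R) * (A.form u u) = 7 * A.form u u := by
    push_cast; ring
  refine descend f S1 S2 h1 h2 x z (q := A.form u u) (c1 := 1)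
    (c2 := 0) (c3 := 0) (e1 := u) (e2 := 0) (e3 := 0) w (ρ := 6) (by norm_num)
    (map_zero _) (map_zero _) (map_zero _) k1 k2 k2 k4 k n ?_
  have h3 := h (fun i => S2.j (S1.j (x i))) (S2.j (S1.j z)) (S2.j (S1.j u))
    (S2.j (S1.j w + S1.U) + S2.U)
  rw [SqData.j_form, SqData.j_form] at h3
  rw [map_one, map_one, map_zero, map_zero, map_zero, map_zero]
  exact h3

lemma StC_step {k n : ℕ} (h : StC f S2.A' k (n + 1)) : StC f A (k + 1) n := by
  intro x z w
  have k2 : (0 : R) ^ 2 * A.form (0 : V) 0 = 1 * 0 := by ring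
  have k4 : 0 * A.form (0 : V) 0 + 0 * A.form (0 : V) 0 +
      0 * A.form (0 : V) 0 + ((7 : ℕ) : R) * 1 = 7 * 1 := by
    push_cast; ring
  refine descend f S1 S2 h1 h2 x z (q := 1) (c1 := 0)
    (c2 := 0) (c3 := 0) (e1 := 0) (e2 := 0) (e3 := 0) w (ρ := 7) (by norm_num)
    (map_zero _) (map_zero _) (map_zero _) k2 k2 k2 k4 k n ?_
  have h3 := h (fun i => S2.j (S1.j (x i))) (S2.j (S1.j z))
    (S2.j (S1.j w + S1.U) + S2.U)
  rw [map_one, map_one, map_zero, map_zero, map_zero, map_zero]
  exact h3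

omit h1 h2

variable [Fintype ι] [DecidableEq ι]

lemma StA_base (hf : ∀ w ∈ f.support, MLin w)
    (hvan : ∀ (a b c : R) (v : ι → (Fin 7 → R)), evP R (tab a b c) f v = 0) :
    StA f A (4 * Fintype.card ι) (2 * Fintype.card ι) := by
  intro x z u v w huv
  have g1 : A.form u (A.mul u v) = 0 := by rw [A.symm, form_self_left]
  have g2 : A.form v (A.mul u v) = 0 := by rw [A.symm, form_self_right]
  have g3 := normA A huv
  have hvu : A.form v u = 0 := by rw [A.symm]; exact huv
  have g1' : A.form (A.mul u v) u = 0 := form_self_left A u v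
  have g2' : A.form (A.mul u v) v = 0 := form_self_right A u v
  set W := Pr A (A.form u u * A.form v v) (A.form v v) (A.form u u) 1 u v (A.mul u v) w with hW
  have e1 : A.form u W = 0 := by
    rw [hW]
    unfold Pr
    simp only [map_sub, map_smul, smul_eq_mul, huv, g1, A.symm w u]
    ring
  have e2 : A.form v W = 0 := by
    rw [hW]
    unfold Pr
    simp only [map_sub, map_smul, smul_eq_mul, hvu, g2, A.symm w v]
    ring
  have e3 : A.form (A.mul u v) W = 0 := by
    rw [hW]
    unfold Pr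
    simp only [map_sub, map_smul, smul_eq_mul, g1', g2', g3, A.symm w (A.mul u v)]
    ring
  have e4 := Pr_self A (q := A.form u u * A.form v v) (c1 := A.form v v) (c2 := A.form u u)
    (c3 := 1) huv g1 g2 (by ring) (by ring) (by rw [g3]; ring) w
  have h1 := step1 (F := F) A hf hvan huv e1 e2 e3 x
  have h2 := congrArg (fun t => A.form t z) h1
  simp only [map_smul, map_zero, LinearMap.smul_apply, LinearMap.zero_apply, smul_eq_mul] at h2
  rw [hW, e4] at h2
  refine Eq.trans ?_ h2
  show _ = _ * A.form (val f A x) z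
  congr 1
  ring

omit [Fintype ι] [DecidableEq ι]

lemma StB_base {K : ℕ} (h : StA f A K 0) : StB f A (2 * K) K := by
  intro x z u w
  set W := Pr A (A.form u u) 1 0 0 u 0 0 w with hW
  have e1 : A.form u W = 0 := by
    rw [hW]
    unfold Pr
    simp only [map_sub, map_smul, smul_eq_mul, A.symm w u, map_zero]
    ring
  have e4 := Pr_self A (q := A.form u u) (c1 := 1) (c2 := 0) (c3 := 0) (e1 := u) (e2 := 0)
    (e3 := 0) (by simp) (by simp) (by simp) (by ring) (by simp) (by simp) w
  have h1 := h x z u W w e1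
  rw [pow_zero, mul_one, hW, e4] at h1
  refine Eq.trans ?_ h1
  congr 1
  ring

lemma StC_base {K : ℕ} (h : StB f A K 0) : StC f A 0 K := by
  intro x z w
  have h1 := h x z w w
  rw [pow_zero, mul_one] at h1
  refine Eq.trans ?_ h1
  have e : NN A 1 0 0 0 0 0 0 w = A.form w w := by
    unfold NN
    simp
  rw [e, pow_zero, one_mul]

end gen

section claims

variable (F : Type v) [Field F] [CharZero F] {ι : Type w} (f : FreeMagma ι →₀ F)

/-- the claim of type (a) -/
def ClaimA (k n : ℕ) : Prop := ∀ (R V : Type u) [CommRing R] [Algebra F R] [AddCommGroup V]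
  [Module R V] (A : VPA R V), StA f A k n

/-- the claim of type (b) -/
def ClaimB (k n : ℕ) : Prop := ∀ (R V : Type u) [CommRing R] [Algebra F R] [AddCommGroup V]
  [Module R V] (A : VPA R V), StB f A k n

/-- the claim of type (c) -/
def ClaimC (k n : ℕ) : Prop := ∀ (R V : Type u) [CommRing R] [Algebra F R] [AddCommGroup V]
  [Module R V] (A : VPA R V), StC f A k n

variable {F}

lemma sqData_comp {R V : Type*} [CommRing R] [Algebra F R] [AddCommGroup V] [Module R V]
    (A : VPA R V) : Comp F (sqData A) := fun _ => rfl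

lemma stepA {k n : ℕ} (h : ClaimA.{u, v, w} F f k (n + 1)) : ClaimA.{u, v, w} F f (k + 1) n := by
  intro R V _ _ _ _ A
  exact StA_step f (sqData A) (sqData (sqData A).A') (sqData_comp A) (sqData_comp (sqData A).A')
    (h _ _ _)

lemma stepB {k n : ℕ} (h : ClaimB.{u, v, w} F f k (n + 1)) : ClaimB.{u, v, w} F f (k + 1) n := by
  intro R V _ _ _ _ A
  exact StB_step f (sqData A) (sqData (sqData A).A') (sqData_comp A) (sqData_comp (sqData A).A')
    (h _ _ _)

lemma stepC {k n : ℕ} (h : ClaimC.{u, v, w} F f k (n + 1)) : ClaimC.{u, v, w} F f (k + 1) n := by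
  intro R V _ _ _ _ A
  exact StC_step f (sqData A) (sqData (sqData A).A') (sqData_comp A) (sqData_comp (sqData A).A')
    (h _ _ _)

lemma stepsA {k n : ℕ} (h : ClaimA.{u, v, w} F f k n) : ClaimA.{u, v, w} F f (k + n) 0 := by
  induction n generalizing k with
  | zero => exact h
  | succ n ih =>
    have := ih (stepA f h)
    rwa [show k + 1 + n = k + (n + 1) by ring] at this

lemma stepsB {k n : ℕ} (h : ClaimB.{u, v, w} F f k n) : ClaimB.{u, v, w} F f (k + n) 0 := by
  induction n generalizing k with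
  | zero => exact h
  | succ n ih =>
    have := ih (stepB f h)
    rwa [show k + 1 + n = k + (n + 1) by ring] at this

lemma stepsC {k n : ℕ} (h : ClaimC.{u, v, w} F f k n) : ClaimC.{u, v, w} F f (k + n) 0 := by
  induction n generalizing k with
  | zero => exact h
  | succ n ih =>
    have := ih (stepC f h)
    rwa [show k + 1 + n = k + (n + 1) by ring] at this

lemma form_val_eq_zero [Fintype ι] [DecidableEq ι] (hf : ∀ w ∈ f.support, MLin w)
    (hvan : ∀ (R : Type u) [CommRing R] [Algebra F R] (a b c : R) (v : ι → (Fin 7 → R)),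
      evP R (tab a b c) f v = 0) (R V : Type u) [CommRing R] [Algebra F R] [AddCommGroup V]
    [Module R V] (A : VPA R V) (x : ι → V) (z : V) : A.form (val f A x) z = 0 := by
  have hA : ClaimA.{u, v, w} F f (4 * Fintype.card ι) (2 * Fintype.card ι) := by
    intro R V _ _ _ _ A
    exact StA_base f hf (hvan R)
  have hB : ClaimB.{u, v, w} F f (2 * (4 * Fintype.card ι + 2 * Fintype.card ι))
      (4 * Fintype.card ι + 2 * Fintype.card ι) := by
    intro R V _ _ _ _ A
    exact StB_base f (stepsA f hA R V A)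
  have hC : ClaimC.{u, v, w} F f 0 (2 * (4 * Fintype.card ι + 2 * Fintype.card ι) +
      (4 * Fintype.card ι + 2 * Fintype.card ι)) := by
    intro R V _ _ _ _ A
    exact StC_base f (stepsB f hB R V A)
  have := stepsC f hC R V A x z 0
  rwa [one_pow, one_mul, pow_zero, one_mul] at this

end claims

/-- **Part C**, with `F` in its own universe -/
theorem partC_univ (F : Type v) [Field F] [CharZero F] (ι : Type w) [Fintype ι] [DecidableEq ι]
    (f : FreeMagma ι →₀ F) (hf : ∀ w ∈ f.support, MLin w)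
    (a0 b0 c0 : F) (ha : a0 ≠ 0) (hb : b0 ≠ 0) (hc : c0 ≠ 0)
    (h : ∀ v : ι → (Fin 7 → F), evP F (tab a0 b0 c0) f v = 0)
    (R V : Type u) [CommRing R] [Algebra F R] [AddCommGroup V] [Module R V]
    (A : VPA R V) (v : ι → V) : evP R (fun x y => A.mul x y) f v = 0 := by
  have hvan : ∀ (R : Type u) [CommRing R] [Algebra F R] (a b c : R) (v : ι → (Fin 7 → R)),
      evP R (tab a b c) f v = 0 := by
    intro R _ _ a b c v
    exact vanish_all f ha hb hc h a b c v
  have h1 := form_val_eq_zero f hf hvan _ _ (sqData A).A' (fun i => (sqData A).j (v i))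
    (sqData A).U
  rw [sq_val f (sqData A) (sqData_comp A), SqData.form_jU] at h1
  have h2 := congrArg (sqData A).pr h1
  rwa [SqData.pr_e, map_zero] at h2

/-- **Part C** -/
theorem partC : Pool.Agent.Hhelper8.PartC.{u} := by
  intro F _ _ ι _ _ f hf a0 b0 c0 ha hb hc h R V _ _ _ _ A v
  exact partC_univ F ι f hf a0 b0 c0 ha hb hc h R V A v

end Pool.Agent.Hhelper65.PC
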