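import Pool.Agent.Hhelper65.PC.Sq

/-!
# General square-zero extensions of vector product algebras

For a vector product algebra `A` over `R` on `V` and `R`-modules `M`, `H` with the data `ExtData`
the group `V × M` is a vector product algebra over the ring `RP R H = R ⊕ H` (`H ^ 2 = 0`).
-/

set_option linter.unusedSectionVars false

namespace Pool.Agent.Hhelper65.PC

open Pool.Agent.Hhelper8

/-- the data of a square-zero extension -/
structure ExtData {R V : Type*} [CommRing R] [AddCommGroup V] [Module R V] (A : VPA R V)
    (M H : Type*) [AddCommGroup M] [Module R M] [AddCommGroup H] [Module R H] where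
  act : M →ₗ[R] V →ₗ[R] M
  ev : H →ₗ[R] V →ₗ[R] M
  form1 : M →ₗ[R] V →ₗ[R] H
  E1 : ∀ h v v', ev h (A.mul v v') = act (ev h v) v'
  E2 : ∀ h v v', form1 (ev h v) v' = A.form v v' • h
  E3 : ∀ m v v', form1 (act m v) v' = form1 m (A.mul v v')
  E4 : ∀ m x y, act (act m x) y + act m (A.mul x y) + A.form x y • m =
    (2 : R) • ev (form1 m y) x - ev (form1 m x) y

variable {R V : Type*} [CommRing R] [AddCommGroup V] [Module R V] {A : VPA R V}
  {M H : Type*} [AddCommGroup M] [Module R M] [AddCommGroup H] [Module R H] (D : ExtData A M H)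

/-- the underlying group `V × M` of the extension -/
def EV (D : ExtData A M H) := V × M

namespace EV

variable {D}

instance : AddCommGroup (EV D) := inferInstanceAs (AddCommGroup (V × M))

lemma ext {x y : EV D} (h1 : x.1 = y.1) (h2 : x.2 = y.2) : x = y := Prod.ext h1 h2

/-- constructor -/
def mk (v : V) (m : M) : EV D := (v, m)

@[simp] lemma mk_1 (v : V) (m : M) : (mk v m : EV D).1 = v := rfl
@[simp] lemma mk_2 (v : V) (m : M) : (mk v m : EV D).2 = m := rfl
@[simp] lemma add_1 (x y : EV D) : (x + y).1 = x.1 + y.1 := rfl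
@[simp] lemma add_2 (x y : EV D) : (x + y).2 = x.2 + y.2 := rfl
@[simp] lemma neg_1 (x : EV D) : (-x).1 = -x.1 := rfl
@[simp] lemma neg_2 (x : EV D) : (-x).2 = -x.2 := rfl
@[simp] lemma zero_1 : (0 : EV D).1 = 0 := rfl
@[simp] lemma zero_2 : (0 : EV D).2 = 0 := rfl

instance : SMul (RP R H) (EV D) := ⟨fun r x => mk (r.1 • x.1) (r.1 • x.2 + D.ev r.2 x.1)⟩

@[simp] lemma smul_1 (r : RP R H) (x : EV D) : (r • x).1 = r.1 • x.1 := rfl
@[simp] lemma smul_2 (r : RP R H) (x : EV D) : (r • x).2 = r.1 • x.2 + D.ev r.2 x.1 := rfl

instance : Module (RP R H) (EV D) where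
  one_smul x := by
    apply ext
    · rw [smul_1, RP.one_fst, one_smul]
    · rw [smul_2, RP.one_fst, RP.one_snd, map_zero, LinearMap.zero_apply, one_smul, add_zero]
  mul_smul r s x := by
    apply ext
    · rw [smul_1, smul_1, smul_1, RP.mul_fst, mul_smul]
    · rw [smul_2, smul_2, smul_2, smul_1, RP.mul_fst, RP.mul_snd, map_add, map_smul, map_smul,
        map_smul, LinearMap.add_apply, LinearMap.smul_apply, LinearMap.smul_apply]
      module
  smul_zero r := by
    apply ext
    · rw [smul_1, zero_1, smul_zero]
    · rw [smul_2, zero_1, zero_2, map_zero, smul_zero, add_zero]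
  smul_add r x y := by
    apply ext
    · simp only [smul_1, add_1, smul_add]
    · simp only [smul_2, add_1, add_2, smul_add, map_add]
      abel
  add_smul r s x := by
    apply ext
    · simp only [smul_1, add_1, RP.add_fst, add_smul]
    · simp only [smul_2, add_2, RP.add_fst, RP.add_snd, add_smul, map_add, LinearMap.add_apply]
      abel
  zero_smul x := by
    apply ext
    · rw [smul_1, RP.zero_fst, zero_smul, zero_1]
    · rw [smul_2, RP.zero_fst, RP.zero_snd, zero_smul, map_zero, LinearMap.zero_apply, add_zero,
        zero_2]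

end EV

open EV

/-- the product of the extension -/
def emul (x y : EV D) : EV D := mk (A.mul x.1 y.1) (D.act x.2 y.1 - D.act y.2 x.1)

@[simp] lemma emul_1 (x y : EV D) : (emul D x y).1 = A.mul x.1 y.1 := rfl
@[simp] lemma emul_2 (x y : EV D) : (emul D x y).2 = D.act x.2 y.1 - D.act y.2 x.1 := rfl

/-- the form of the extension -/
def eform (x y : EV D) : RP R H := (A.form x.1 y.1, D.form1 x.2 y.1 + D.form1 y.2 x.1)

@[simp] lemma eform_1 (x y : EV D) : (eform D x y).1 = A.form x.1 y.1 := rfl
@[simp] lemma eform_2 (x y : EV D) : (eform D x y).2 = D.form1 x.2 y.1 + D.form1 y.2 x.1 := rfl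

/-- **the square-zero extension** -/
noncomputable def ExtVPA : VPA (RP R H) (EV D) where
  mul := LinearMap.mk₂ (RP R H) (emul D)
    (by
      intro x x' y
      apply EV.ext
      · simp
      · simp only [emul_2, add_1, add_2, map_add, LinearMap.add_apply]
        abel)
    (by
      intro r x y
      apply EV.ext
      · simp
      · simp only [emul_2, emul_1, smul_1, smul_2, map_add, LinearMap.add_apply, map_smul,
          LinearMap.smul_apply, D.E1, smul_sub]
        abel)
    (by
      intro x y y'
      apply EV.ext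
      · simp
      · simp only [emul_2, add_1, add_2, map_add, LinearMap.add_apply]
        abel)
    (by
      intro r x y
      apply EV.ext
      · simp
      · simp only [emul_2, emul_1, smul_1, smul_2, map_add, LinearMap.add_apply, map_smul,
          LinearMap.smul_apply, smul_sub]
        rw [anti A x.1 y.1, map_neg, D.E1]
        abel)
  form := LinearMap.mk₂ (RP R H) (eform D)
    (by
      intro x x' y
      apply RP.ext
      · simp
      · simp only [eform_2, add_1, add_2, LinearMap.add_apply, map_add, RP.add_snd]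
        abel)
    (by
      intro r x y
      apply RP.ext
      · simp
      · simp only [eform_2, eform_1, smul_1, smul_2, LinearMap.add_apply, map_add,
          LinearMap.smul_apply, D.E2, map_smul, smul_eq_mul, RP.mul_snd]
        module)
    (by
      intro x y y'
      apply RP.ext
      · simp
      · simp only [eform_2, add_1, add_2, LinearMap.add_apply, map_add, RP.add_snd]
        abel)
    (by
      intro r x y
      apply RP.ext
      · simp
      · simp only [eform_2, eform_1, smul_1, smul_2, LinearMap.add_apply, map_add,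
          LinearMap.smul_apply, D.E2, map_smul, smul_eq_mul, RP.mul_snd]
        rw [A.symm y.1 x.1]
        module)
  mul_self x := by
    show emul D x x = 0
    apply EV.ext
    · rw [emul_1, A.mul_self, zero_1]
    · rw [emul_2, sub_self, zero_2]
  symm x y := by
    show eform D x y = eform D y x
    apply RP.ext
    · rw [eform_1, eform_1, A.symm]
    · rw [eform_2, eform_2, add_comm]
  inv x y z := by
    show eform D (emul D x y) z = eform D x (emul D y z)
    apply RP.ext
    · rw [eform_1, eform_1, emul_1, emul_1, A.inv]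
    · rw [eform_2, eform_2, emul_1, emul_1, emul_2, emul_2, map_sub, map_sub,
        LinearMap.sub_apply, LinearMap.sub_apply, D.E3, D.E3, D.E3, D.E3, anti A z.1 x.1,
        anti A y.1 x.1, map_neg, map_neg]
      abel
  vp x y z := by
    show emul D (emul D z x) y + emul D z (emul D x y) + eform D x y • z =
      (2 : RP R H) • eform D z y • x - eform D z x • y
    have h21 : (2 : RP R H).1 = 2 := by
      have : (2 : RP R H) = 1 + 1 := by norm_num
      rw [this, RP.add_fst, RP.one_fst]
      norm_num
    have h22 : (2 : RP R H).2 = 0 := by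
      have : (2 : RP R H) = 1 + 1 := by norm_num
      rw [this, RP.add_snd, RP.one_snd, add_zero]
    rw [sub_eq_add_neg]
    apply EV.ext
    · simp only [add_1, emul_1, smul_1, eform_1, h21, neg_1]
      rw [← sub_eq_add_neg]
      exact A.vp _ _ _
    · simp only [add_2, emul_2, emul_1, smul_1, smul_2, eform_1, eform_2, h21, h22, neg_2, map_zero,
        LinearMap.zero_apply, LinearMap.add_apply, add_zero, map_sub, LinearMap.sub_apply, map_add]
      have hm := D.E4 z.2 x.1 y.1
      have hn1 := D.E4 x.2 z.1 y.1
      have hn2 := D.E4 x.2 y.1 z.1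
      have hk := D.E4 y.2 x.1 z.1
      rw [anti A y.1 z.1, A.symm y.1 z.1, map_neg] at hn2
      rw [A.symm x.1 z.1, anti A x.1 z.1, map_neg] at hk
      linear_combination (norm := module) hm - hn1 - hn2 + hk

lemma ExtVPA_mul (x y : EV D) : (ExtVPA D).mul x y =
    EV.mk (A.mul x.1 y.1) (D.act x.2 y.1 - D.act y.2 x.1) := rfl

lemma ExtVPA_form (x y : EV D) : (ExtVPA D).form x y =
    ((A.form x.1 y.1, D.form1 x.2 y.1 + D.form1 y.2 x.1) : RP R H) := rfl

@[simp] lemma ExtVPA_mul_1 (x y : EV D) : ((ExtVPA D).mul x y).1 = A.mul x.1 y.1 := rfl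
@[simp] lemma ExtVPA_mul_2 (x y : EV D) : ((ExtVPA D).mul x y).2 =
    D.act x.2 y.1 - D.act y.2 x.1 := rfl
@[simp] lemma ExtVPA_form_1 (x y : EV D) : ((ExtVPA D).form x y).1 = A.form x.1 y.1 := rfl
@[simp] lemma ExtVPA_form_2 (x y : EV D) : ((ExtVPA D).form x y).2 =
    D.form1 x.2 y.1 + D.form1 y.2 x.1 := rfl

end Pool.Agent.Hhelper65.PC
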