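import Pool.Agent.Hhelper65.PC.One

/-!
# Part C, step 2: the extension `Sq V`
-/

set_option linter.unusedSectionVars false

namespace Pool.Agent.Hhelper65.PC

open Pool.Agent.Hhelper8

universe u

/-- the ring `R ⊕ V` with `V ^ 2 = 0` -/
def RP (R V : Type*) := R × V

namespace RP

variable {R V : Type*} [CommRing R] [AddCommGroup V] [Module R V]

instance : AddCommGroup (RP R V) := inferInstanceAs (AddCommGroup (R × V))

instance : Mul (RP R V) := ⟨fun x y => (x.1 * y.1, x.1 • y.2 + y.1 • x.2)⟩

instance : One (RP R V) := ⟨(1, 0)⟩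

lemma ext {x y : RP R V} (h1 : x.1 = y.1) (h2 : x.2 = y.2) : x = y := Prod.ext h1 h2

@[simp] lemma add_fst (x y : RP R V) : (x + y).1 = x.1 + y.1 := rfl
@[simp] lemma add_snd (x y : RP R V) : (x + y).2 = x.2 + y.2 := rfl
@[simp] lemma mul_fst (x y : RP R V) : (x * y).1 = x.1 * y.1 := rfl
@[simp] lemma mul_snd (x y : RP R V) : (x * y).2 = x.1 • y.2 + y.1 • x.2 := rfl
@[simp] lemma one_fst : (1 : RP R V).1 = 1 := rfl
@[simp] lemma one_snd : (1 : RP R V).2 = 0 := rfl
@[simp] lemma zero_fst : (0 : RP R V).1 = 0 := rfl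
@[simp] lemma zero_snd : (0 : RP R V).2 = 0 := rfl
@[simp] lemma neg_fst (x : RP R V) : (-x).1 = -x.1 := rfl
@[simp] lemma neg_snd (x : RP R V) : (-x).2 = -x.2 := rfl

instance : CommRing (RP R V) :=
  { (inferInstance : AddCommGroup (RP R V)), (inferInstance : Mul (RP R V)),
    (inferInstance : One (RP R V)) with
    mul_assoc := by
      intro x y z
      apply ext
      · simp only [mul_fst, mul_assoc]
      · simp only [mul_fst, mul_snd]
        module
    one_mul := by
      intro x
      apply ext <;> simp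
    mul_one := by
      intro x
      apply ext <;> simp
    mul_comm := by
      intro x y
      apply ext
      · simp only [mul_fst, mul_comm]
      · simp only [mul_snd, add_comm]
    left_distrib := by
      intro x y z
      apply ext
      · simp only [mul_fst, add_fst, mul_add]
      · simp only [mul_snd, add_fst, add_snd]
        module
    right_distrib := by
      intro x y z
      apply ext
      · simp only [mul_fst, add_fst, add_mul]
      · simp only [mul_snd, add_fst, add_snd]
        module
    zero_mul := by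
      intro x
      apply ext <;> simp
    mul_zero := by
      intro x
      apply ext <;> simp }

/-- the inclusion of `R` -/
def inl : R →+* RP R V where
  toFun r := (r, 0)
  map_one' := rfl
  map_zero' := rfl
  map_mul' x y := by apply ext <;> simp
  map_add' x y := by apply ext <;> simp

@[simp] lemma inl_fst (r : R) : (inl r : RP R V).1 = r := rfl
@[simp] lemma inl_snd (r : R) : (inl r : RP R V).2 = 0 := rfl

/-- the inclusion of `V` -/
def eps : V →+ RP R V where
  toFun v := (0, v)
  map_zero' := rfl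
  map_add' x y := by apply ext <;> simp

@[simp] lemma eps_fst (v : V) : (eps v : RP R V).1 = 0 := rfl
@[simp] lemma eps_snd (v : V) : (eps v : RP R V).2 = v := rfl

instance {F : Type*} [CommRing F] [Algebra F R] : Algebra F (RP R V) :=
  ((inl : R →+* RP R V).comp (algebraMap F R)).toAlgebra

lemma algebraMap_eq {F : Type*} [CommRing F] [Algebra F R] (c : F) :
    algebraMap F (RP R V) c = inl (algebraMap F R c) := rfl

end RP

section E

variable {R V : Type*} [CommRing R] [AddCommGroup V] [Module R V] (A : VPA R V)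

/-- the space `E` -/
abbrev EE (R V : Type*) [CommRing R] [AddCommGroup V] [Module R V] :=
  (V →ₗ[R] V) × R × (V →ₗ[R] R)

/-- the right action of `V` on `E` -/
noncomputable def act : EE R V →ₗ[R] V →ₗ[R] EE R V :=
  LinearMap.mk₂ R (fun m a => (m.1 ∘ₗ A.mul a, m.2.2 a, -(m.2.2 ∘ₗ A.mul a) - m.2.1 • A.form a +
    (2 : R) • (A.form a ∘ₗ m.1) - A.form (m.1 a)))
    (by
      intro m n a
      refine Prod.ext ?_ (Prod.ext ?_ ?_)
      · rfl
      · rfl
      · ext b
        simp
        ring)
    (by
      intro r m a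
      refine Prod.ext ?_ (Prod.ext ?_ ?_)
      · rfl
      · rfl
      · ext b
        simp
        ring)
    (by
      intro m a b
      refine Prod.ext ?_ (Prod.ext ?_ ?_)
      · ext v
        simp
      · simp
      · ext v
        simp
        ring)
    (by
      intro r m a
      refine Prod.ext ?_ (Prod.ext ?_ ?_)
      · ext v
        simp
      · simp
      · ext v
        simp
        ring)

lemma act_1 (m : EE R V) (a v : V) : (act A m a).1 v = m.1 (A.mul a v) := rfl
lemma act_21 (m : EE R V) (a : V) : (act A m a).2.1 = m.2.2 a := rfl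
lemma act_22 (m : EE R V) (a b : V) : (act A m a).2.2 b = -m.2.2 (A.mul a b) -
    m.2.1 * A.form a b + 2 * A.form a (m.1 b) - A.form (m.1 a) b := rfl

/-- the elements `X(z,y)` -/
noncomputable def XX : V →ₗ[R] V →ₗ[R] EE R V :=
  LinearMap.mk₂ R (fun z y => ((A.form z).smulRight y, A.form z y, A.form y ∘ₗ A.mul z))
    (by
      intro z z' y
      refine Prod.ext ?_ (Prod.ext ?_ ?_)
      · ext v
        simp [add_smul]
      · simp
      · ext b
        simp)
    (by
      intro r z y
      refine Prod.ext ?_ (Prod.ext ?_ ?_)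
      · ext v
        simp [mul_smul]
      · simp
      · ext b
        simp)
    (by
      intro z y y'
      refine Prod.ext ?_ (Prod.ext ?_ ?_)
      · ext v
        simp
      · simp
      · ext b
        simp)
    (by
      intro r z y
      refine Prod.ext ?_ (Prod.ext ?_ ?_)
      · ext v
        exact smul_comm _ _ _
      · simp
      · ext b
        simp)

lemma XX_1 (z y v : V) : (XX A z y).1 v = A.form z v • y := rfl
lemma XX_21 (z y : V) : (XX A z y).2.1 = A.form z y := rfl
lemma XX_22 (z y b : V) : (XX A z y).2.2 b = A.form y (A.mul z b) := rfl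

/-- the element `uhat` -/
def uhat : EE R V := (LinearMap.id, 7, 0)

lemma uhat_1 (v : V) : (uhat : EE R V).1 v = v := rfl
lemma uhat_21 : (uhat : EE R V).2.1 = 7 := rfl
lemma uhat_22 (v : V) : (uhat : EE R V).2.2 v = 0 := rfl

lemma EE_ext {m n : EE R V} (h1 : ∀ v, m.1 v = n.1 v) (h2 : m.2.1 = n.2.1)
    (h3 : ∀ v, m.2.2 v = n.2.2 v) : m = n :=
  Prod.ext (LinearMap.ext h1) (Prod.ext h2 (LinearMap.ext h3))

/-- the vector product identity for `m` -/
def VPm (m : EE R V) : Prop := ∀ x y, act A (act A m x) y + act A m (A.mul x y) + A.form x y • m =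
  (2 : R) • XX A x (m.1 y) - XX A y (m.1 x)

lemma VPm_add {m n : EE R V} (hm : VPm A m) (hn : VPm A n) : VPm A (m + n) := by
  intro x y
  have h1 := hm x y
  have h2 := hn x y
  simp only [map_add, LinearMap.add_apply, smul_add, Prod.fst_add]
  have e : (2 : R) • XX A x (m.1 y) + (2 : R) • XX A x (n.1 y) -
      (XX A y (m.1 x) + XX A y (n.1 x)) = ((2 : R) • XX A x (m.1 y) - XX A y (m.1 x)) +
      ((2 : R) • XX A x (n.1 y) - XX A y (n.1 x)) := by abel
  rw [e, ← h1, ← h2]
  abel

lemma VPm_smul {m : EE R V} (hm : VPm A m) (r : R) : VPm A (r • m) := by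
  intro x y
  have h1 := hm x y
  simp only [map_smul, LinearMap.smul_apply, Prod.smul_fst]
  have e : (2 : R) • r • XX A x (m.1 y) - r • XX A y (m.1 x) =
    r • ((2 : R) • XX A x (m.1 y) - XX A y (m.1 x)) := by module
  rw [e, ← h1]
  module

lemma VPm_zero : VPm A (0 : EE R V) := by
  intro x y
  simp

lemma act_XX (z y a : V) : act A (XX A z y) a = XX A (A.mul z a) y := by
  apply EE_ext
  · intro v
    rw [act_1, XX_1, XX_1, A.inv]
  · rw [act_21, XX_22, XX_21, A.symm]
  · intro b
    rw [act_22, XX_22, XX_22, XX_21, XX_1, XX_1]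
    have h := congrArg (fun t => A.form y t) (A.vp a b z)
    simp only [map_add, map_sub, map_smul, smul_eq_mul] at h
    simp only [map_smul, LinearMap.smul_apply, smul_eq_mul]
    rw [A.symm y a, A.symm y z] at h
    rw [A.symm a y]
    rw [A.symm a y] at h
    linear_combination (-1 : R) * h

lemma VPm_XX (z y : V) : VPm A (XX A z y) := by
  intro x x'
  rw [act_XX, act_XX, act_XX, XX_1, XX_1]
  have h := congrArg (fun t => XX A t y) (A.vp x x' z)
  simp only [map_add, map_sub, map_smul, LinearMap.add_apply, LinearMap.sub_apply,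
    LinearMap.smul_apply] at h
  rw [h, map_smul, map_smul, smul_smul]

lemma act_uhat_1 (a v : V) : (act A uhat a).1 v = A.mul a v := rfl

lemma act_uhat_21 (a : V) : (act A (uhat : EE R V) a).2.1 = 0 := rfl

lemma act_uhat_22 (a b : V) : (act A uhat a).2.2 b = -6 * A.form a b := by
  rw [act_22, uhat_1, uhat_1, uhat_21, uhat_22]
  ring

/-- the first component of the vector product identity holds for every `m` -/
lemma VPm_fst (m : EE R V) (x y v : V) :
    (act A (act A m x) y + act A m (A.mul x y) + A.form x y • m).1 v =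
    ((2 : R) • XX A x (m.1 y) - XX A y (m.1 x)).1 v := by
  show m.1 (A.mul x (A.mul y v)) + m.1 (A.mul (A.mul x y) v) + A.form x y • m.1 v =
    (2 : R) • A.form x v • m.1 y - A.form y v • m.1 x
  have h := congrArg m.1 (A.vp y v x)
  simp only [map_add, map_sub, map_smul] at h
  rw [smul_smul]
  have e : m.1 (A.mul x (A.mul y v)) + m.1 (A.mul (A.mul x y) v) + A.form x y • m.1 v =
    (m.1 (A.mul (A.mul x y) v) + m.1 (A.mul x (A.mul y v)) + A.form y v • m.1 x) -
      A.form y v • m.1 x + A.form x y • m.1 v := by abel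
  rw [e, h]
  module

/-- the second component of the vector product identity holds for every `m` -/
lemma VPm_snd (m : EE R V) (x y : V) :
    (act A (act A m x) y + act A m (A.mul x y) + A.form x y • m).2.1 =
    ((2 : R) • XX A x (m.1 y) - XX A y (m.1 x)).2.1 := by
  show (act A m x).2.2 y + m.2.2 (A.mul x y) + A.form x y * m.2.1 =
    2 * A.form x (m.1 y) - A.form y (m.1 x)
  rw [act_22, A.symm (m.1 x) y]
  ring

lemma VPm_uhat : VPm A (uhat : EE R V) := by
  intro x y
  refine EE_ext (VPm_fst A uhat x y) (VPm_snd A uhat x y) ?_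
  intro b
  show (act A (act A uhat x) y).2.2 b + (act A uhat (A.mul x y)).2.2 b + A.form x y * 0 =
    2 * A.form y (A.mul x b) - A.form x (A.mul y b)
  rw [act_22, act_uhat_22, act_uhat_22, act_uhat_21, act_uhat_1, act_uhat_1, inv' A x y b,
    inv' A y x b, anti A y x, map_neg, LinearMap.neg_apply]
  ring

lemma VPm_act_uhat (a : V) : VPm A (act A (uhat : EE R V) a) := by
  intro x y
  refine EE_ext (VPm_fst A _ x y) (VPm_snd A _ x y) ?_
  intro b
  show (act A (act A (act A uhat a) x) y).2.2 b + (act A (act A uhat a) (A.mul x y)).2.2 b +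
    A.form x y * (act A uhat a).2.2 b =
    2 * A.form (A.mul a y) (A.mul x b) - A.form (A.mul a x) (A.mul y b)
  have t1 : (act A (act A (act A uhat a) x) y).2.2 b =
      -(6 * A.form a (A.mul x (A.mul y b)) + 2 * A.form x (A.mul a (A.mul y b)) -
        A.form (A.mul a x) (A.mul y b)) + 6 * A.form a x * A.form y b +
      2 * A.form y (A.mul a (A.mul x b)) - A.form (A.mul a (A.mul x y)) b := by
    rw [act_22, act_22 A (act A uhat a), act_21 A (act A uhat a), act_uhat_22, act_uhat_22,
      act_uhat_21, act_1 A (act A uhat a), act_1 A (act A uhat a), act_uhat_1, act_uhat_1,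
      act_uhat_1, act_uhat_1]
    ring
  have t2 : (act A (act A uhat a) (A.mul x y)).2.2 b = 6 * A.form a (A.mul (A.mul x y) b) +
      2 * A.form (A.mul x y) (A.mul a b) - A.form (A.mul a (A.mul x y)) b := by
    rw [act_22, act_uhat_22, act_uhat_21, act_uhat_1, act_uhat_1]
    ring
  rw [t1, t2, act_uhat_22]
  have u1 : A.form a (A.mul x (A.mul y b)) = -A.form a (A.mul (A.mul y b) x) := by
    rw [anti A x (A.mul y b), map_neg]
  have u2 : A.form (A.mul a x) (A.mul y b) = -A.form a (A.mul (A.mul y b) x) := by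
    rw [A.inv, u1]
  have u3 : A.form x (A.mul a (A.mul y b)) = A.form a (A.mul (A.mul y b) x) := by
    rw [inv', anti A x a, map_neg, LinearMap.neg_apply, u2, neg_neg]
  have u4 : A.form (A.mul a y) (A.mul x b) = A.form a (A.mul (A.mul b x) y) := by
    rw [A.inv, anti A x b, map_neg, anti A y, neg_neg]
  have u5 : A.form y (A.mul a (A.mul x b)) = -A.form a (A.mul (A.mul b x) y) := by
    rw [inv', anti A y a, map_neg, LinearMap.neg_apply, u4]
  have u6 : A.form (A.mul a (A.mul x y)) b = A.form a (A.mul (A.mul x y) b) := A.inv _ _ _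
  have u7 : A.form (A.mul x y) (A.mul a b) = -A.form a (A.mul (A.mul x y) b) := by
    rw [inv', anti A (A.mul x y) a, map_neg, LinearMap.neg_apply, u6]
  have r1 := congrArg (A.form a) (A.vp y b x)
  have r2 := congrArg (A.form a) (A.vp b x y)
  simp only [map_add, map_sub, map_smul, smul_eq_mul] at r1 r2
  have w1 : A.form a (A.mul x (A.mul y b)) = -A.form a (A.mul (A.mul y b) x) := u1
  have w2 : A.form a (A.mul y (A.mul b x)) = -A.form a (A.mul (A.mul b x) y) := by
    rw [anti A y (A.mul b x), map_neg]
  rw [w1] at r1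
  rw [w2] at r2
  rw [u1, u2, u3, u4, u5, u6, u7]
  rw [A.symm b x, A.symm y x] at r2
  linear_combination 2 * r1 + 4 * r2

/-- the module `M'` -/
def MM : Submodule R (EE R V) where
  carrier := {m | VPm A m ∧ ∀ a, VPm A (act A m a)}
  add_mem' := by
    rintro m n ⟨hm, hm'⟩ ⟨hn, hn'⟩
    refine ⟨VPm_add A hm hn, fun a => ?_⟩
    rw [map_add, LinearMap.add_apply]
    exact VPm_add A (hm' a) (hn' a)
  zero_mem' := by
    refine ⟨VPm_zero A, fun a => ?_⟩
    rw [map_zero, LinearMap.zero_apply]
    exact VPm_zero A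
  smul_mem' := by
    rintro r m ⟨hm, hm'⟩
    refine ⟨VPm_smul A hm r, fun a => ?_⟩
    rw [map_smul, LinearMap.smul_apply]
    exact VPm_smul A (hm' a) r

lemma mem_MM {m : EE R V} : m ∈ MM A ↔ VPm A m ∧ ∀ a, VPm A (act A m a) := Iff.rfl

lemma XX_mem (z y : V) : XX A z y ∈ MM A :=
  ⟨VPm_XX A z y, fun a => by rw [act_XX]; exact VPm_XX A _ _⟩

lemma uhat_mem : (uhat : EE R V) ∈ MM A := ⟨VPm_uhat A, VPm_act_uhat A⟩

lemma act_mem {m : EE R V} (hm : m ∈ MM A) (b : V) : act A m b ∈ MM A := by
  refine ⟨hm.2 b, fun a => ?_⟩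
  have h := hm.1 b a
  have e : act A (act A m b) a = (2 : R) • XX A b (m.1 a) - XX A a (m.1 b) -
      act A m (A.mul b a) - A.form b a • m := by
    rw [← h]
    abel
  rw [e]
  have hneg : ∀ n : EE R V, VPm A n → VPm A (-n) := by
    intro n hn
    have e : -n = (-1 : R) • n := by module
    rw [e]
    exact VPm_smul A hn (-1)
  rw [sub_eq_add_neg, sub_eq_add_neg, sub_eq_add_neg]
  exact VPm_add A (VPm_add A (VPm_add A (VPm_smul A (VPm_XX A _ _) _) (hneg _ (VPm_XX A _ _)))
    (hneg _ (hm.2 _))) (hneg _ (VPm_smul A hm.1 _))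

end E

end Pool.Agent.Hhelper65.PC
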