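import Pool.Agent.Hhelper65.PC.Sq2

/-!
# Part C, step 3: the contraction lemma
-/

set_option linter.unusedSectionVars false

namespace Pool.Agent.Hhelper65.PC

open Pool.Agent.Hhelper8

universe u

/-- the properties of the extension `Sq V` which are used in the contraction lemma -/
structure SqData {R V : Type*} [CommRing R] [AddCommGroup V] [Module R V] (A : VPA R V)
    (R' V' : Type*) [CommRing R'] [AddCommGroup V'] [Module R' V'] where
  A' : VPA R' V'
  i : R →+* R'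
  j : V →+ V'
  e : V →+ R'
  pr : R' →+ V
  U : V'
  T : V' →+ R
  j_smul : ∀ r x, j (r • x) = i r • j x
  j_mul : ∀ x y, j (A.mul x y) = A'.mul (j x) (j y)
  j_form : ∀ x y, A'.form (j x) (j y) = i (A.form x y)
  i_mul_e : ∀ r v, i r * e v = e (r • v)
  e_mul_e : ∀ v w, e v * e w = 0
  form_jU : ∀ x, A'.form (j x) U = e x
  form_UU : A'.form U U = 0
  pr_i : ∀ r, pr (i r) = 0
  pr_e : ∀ v, pr (e v) = v
  T_j : ∀ x, T (j x) = 0
  T_smul : ∀ r y, T (i r • y) = r * T y
  T_U : T U = 7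
  T_ej : ∀ v x, T (e v • j x) = A.form x v
  e_smul_U : ∀ v, e v • U = 0

section

variable {R V : Type*} [CommRing R] [AddCommGroup V] [Module R V] (A : VPA R V)

open VPl in
/-- the extension satisfies these properties -/
noncomputable def sqData : SqData A (RP R V) (VPl A) where
  A' := SqA A
  i := RP.inl
  j := AddMonoidHom.mk' (fun x => mk x 0 (zero_mem _)) (by
    intro x y
    apply VPl.ext
    · rfl
    · rw [add_2, mk_2, mk_2, mk_2, add_zero])
  e := RP.eps
  pr := AddMonoidHom.mk' (fun r => r.2) (fun _ _ => rfl)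
  U := mk 0 uhat (uhat_mem A)
  T := AddMonoidHom.mk' (fun x => (snd' x).2.1) (fun _ _ => rfl)
  j_smul r x := by
    apply VPl.ext
    · rfl
    · show (0 : EE R V) = r • (0 : EE R V) + XX A x 0
      rw [smul_zero, map_zero, add_zero]
  j_mul x y := by
    apply VPl.ext
    · rfl
    · show (0 : EE R V) = act A 0 y - act A 0 x
      rw [map_zero, LinearMap.zero_apply, LinearMap.zero_apply, sub_zero]
  j_form x y := by
    apply RP.ext
    · rfl
    · show (0 : V →ₗ[R] V) y + (0 : V →ₗ[R] V) x = 0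
      simp
  i_mul_e r v := by
    apply RP.ext <;> simp
  e_mul_e v w := by
    apply RP.ext <;> simp
  form_jU x := by
    apply RP.ext
    · show A.form x 0 = 0
      rw [map_zero]
    · show (0 : V →ₗ[R] V) 0 + (LinearMap.id : V →ₗ[R] V) x = x
      simp
  form_UU := by
    apply RP.ext
    · show A.form 0 0 = 0
      rw [map_zero]
    · show (LinearMap.id : V →ₗ[R] V) 0 + (LinearMap.id : V →ₗ[R] V) 0 = 0
      simp
  pr_i r := rfl
  pr_e v := rfl
  T_j x := rfl
  T_smul r y := by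
    show r * (snd' y).2.1 + A.form y.1 0 = r * (snd' y).2.1
    rw [map_zero, add_zero]
  T_U := rfl
  T_ej v x := by
    show (0 : R) * (0 : R) + A.form x v = A.form x v
    rw [mul_zero, zero_add]
  e_smul_U v := by
    apply VPl.ext
    · show (0 : R) • (0 : V) = 0
      rw [smul_zero]
    · show (0 : R) • (uhat : EE R V) + XX A 0 v = 0
      rw [zero_smul, map_zero, LinearMap.zero_apply, add_zero]

/-- the norm -/
noncomputable def NN (q c1 c2 c3 : R) (e1 e2 e3 w : V) : R :=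
  q * A.form w w - c1 * A.form w e1 ^ 2 - c2 * A.form w e2 ^ 2 - c3 * A.form w e3 ^ 2

/-- the projection -/
noncomputable def Pr (q c1 c2 c3 : R) (e1 e2 e3 w : V) : V :=
  q • w - (c1 * A.form w e1) • e1 - (c2 * A.form w e2) • e2 - (c3 * A.form w e3) • e3

end

section

variable {R V : Type*} [CommRing R] [AddCommGroup V] [Module R V] {A : VPA R V}
  {R' V' : Type*} [CommRing R'] [AddCommGroup V'] [Module R' V'] (S : SqData A R' V')

namespace SqData

lemma NN_ext (q c1 c2 c3 : R) (e1 e2 e3 y : V) :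
    NN S.A' (S.i q) (S.i c1) (S.i c2) (S.i c3) (S.j e1) (S.j e2) (S.j e3) (S.j y + S.U) =
      S.i (NN A q c1 c2 c3 e1 e2 e3 y) + 2 * S.e (Pr A q c1 c2 c3 e1 e2 e3 y) := by
  have h1 : S.A'.form (S.j y + S.U) (S.j y + S.U) = S.i (A.form y y) + 2 * S.e y := by
    rw [map_add, map_add, LinearMap.add_apply, LinearMap.add_apply, S.j_form, S.form_UU,
      S.A'.symm S.U (S.j y), S.form_jU]
    ring
  have h2 : ∀ z, S.A'.form (S.j y + S.U) (S.j z) = S.i (A.form y z) + S.e z := by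
    intro z
    rw [map_add, LinearMap.add_apply, S.j_form, S.A'.symm S.U (S.j z), S.form_jU]
  unfold NN Pr
  rw [h1, h2, h2, h2]
  simp only [map_sub, map_mul, map_pow]
  rw [← S.i_mul_e, ← S.i_mul_e, ← S.i_mul_e, ← S.i_mul_e, map_mul, map_mul, map_mul]
  linear_combination (-S.i c1) * S.e_mul_e e1 e1 - S.i c2 * S.e_mul_e e2 e2 -
    S.i c3 * S.e_mul_e e3 e3

lemma pow_ext (a : R) (v : V) (n : ℕ) : (S.i a + 2 * S.e v) ^ (n + 1) =
    S.i (a ^ (n + 1)) + 2 * ((n : R') + 1) * S.i (a ^ n) * S.e v := by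
  induction n with
  | zero => simp
  | succ n ih =>
    rw [pow_succ, ih]
    push_cast
    rw [pow_succ a (n + 1), map_mul, pow_succ a n, map_mul]
    linear_combination (4 * ((n : R') + 1) * S.i (a ^ n)) * S.e_mul_e v v

lemma pow_ext' (a : R) (v : V) (n : ℕ) : (S.i a + 2 * S.e v) ^ n =
    S.i (a ^ n) + 2 * (n : R') * S.i (a ^ (n - 1)) * S.e v := by
  cases n with
  | zero => simp
  | succ n =>
    rw [pow_ext, Nat.add_sub_cancel]
    push_cast
    rfl

lemma T_smul_Pr (q c1 c2 c3 : R) (e1 e2 e3 w : V) (t : R) (v : V) {ρ : R}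
    (hρ : c1 * A.form e1 e1 + c2 * A.form e2 e2 + c3 * A.form e3 e3 + ρ * q = 7 * q) :
    S.T ((S.i t + S.e v) • Pr S.A' (S.i q) (S.i c1) (S.i c2) (S.i c3) (S.j e1) (S.j e2) (S.j e3)
      (S.j w + S.U)) = t * (ρ * q) + A.form (Pr A q c1 c2 c3 e1 e2 e3 w) v := by
  have h2 : ∀ z, S.A'.form (S.j w + S.U) (S.j z) = S.i (A.form w z) + S.e z := by
    intro z
    rw [map_add, LinearMap.add_apply, S.j_form, S.A'.symm S.U (S.j z), S.form_jU]
  -- action of a general scalar
  have h3 : ∀ (s : R) (z : V) (c : R), S.T ((S.i s + S.e z) • S.i c • S.j w) = c * A.form w z := by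
    intro s z c
    rw [smul_smul, add_mul, add_smul, map_add, mul_comm (S.e z), S.i_mul_e, S.T_ej, mul_smul,
      ← S.j_smul, ← S.j_smul, S.T_j, map_smul, smul_eq_mul, zero_add]
  have h4 : ∀ (s : R) (z : V) (c : R), S.T ((S.i s + S.e z) • S.i c • S.U) = s * c * 7 := by
    intro s z c
    rw [smul_smul, add_mul, add_smul, map_add, mul_comm (S.e z), S.i_mul_e, S.e_smul_U, map_zero,
      add_zero, mul_smul, S.T_smul, S.T_smul, S.T_U, mul_assoc]
  have h5 : ∀ (s : R) (z : V) (c : R) (e : V),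
      S.T ((S.i s + S.e z) • (S.i c * (S.i (A.form w e) + S.e e)) • S.j e) =
        s * c * A.form e e + c * A.form w e * A.form e z := by
    intro s z c e
    have e1 : (S.i s + S.e z) * (S.i c * (S.i (A.form w e) + S.e e)) =
        S.i (s * c * A.form w e) + S.e ((s * c) • e) + S.e ((c * A.form w e) • z) := by
      rw [← S.i_mul_e, ← S.i_mul_e]
      simp only [map_mul]
      linear_combination S.i c * S.e_mul_e z e
    rw [smul_smul, e1, add_smul, add_smul, map_add, map_add, S.T_ej, S.T_ej, ← S.j_smul, S.T_j,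
      map_smul, map_smul, smul_eq_mul, smul_eq_mul, zero_add]
  unfold Pr
  rw [h2, h2, h2, smul_sub, smul_sub, smul_sub, smul_add, smul_add, map_sub, map_sub, map_sub,
    map_add, h3, h4, h5, h5, h5]
  simp only [map_sub, map_smul, LinearMap.sub_apply, LinearMap.smul_apply, smul_eq_mul]
  linear_combination (-t) * hρ

end SqData

/-- **the contraction lemma** -/
theorem contraction {R1 V1 R2 V2 : Type*} [CommRing R1] [AddCommGroup V1] [Module R1 V1]
    [CommRing R2] [AddCommGroup V2] [Module R2 V2] (S1 : SqData A R1 V1) (S2 : SqData S1.A' R2 V2)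
    (q c1 c2 c3 : R) (e1 e2 e3 w : V) (s ρ : R) (n : ℕ)
    (hρ : c1 * A.form e1 e1 + c2 * A.form e2 e2 + c3 * A.form e3 e3 + ρ * q = 7 * q)
    (hPi : A.form (Pr A q c1 c2 c3 e1 e2 e3 w) (Pr A q c1 c2 c3 e1 e2 e3 w) =
      q * NN A q c1 c2 c3 e1 e2 e3 w)
    (hyp : S2.i (S1.i s) * NN S2.A' (S2.i (S1.i q)) (S2.i (S1.i c1)) (S2.i (S1.i c2))
      (S2.i (S1.i c3)) (S2.j (S1.j e1)) (S2.j (S1.j e2)) (S2.j (S1.j e3))
      (S2.j (S1.j w + S1.U) + S2.U) ^ (n + 1) = 0) :
    (2 * ((n : R) + 1) * (ρ + 2 * n)) * (s * q * NN A q c1 c2 c3 e1 e2 e3 w ^ n) = 0 := by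
  rw [S2.NN_ext, S2.pow_ext] at hyp
  set N1 := NN S1.A' (S1.i q) (S1.i c1) (S1.i c2) (S1.i c3) (S1.j e1) (S1.j e2) (S1.j e3)
    (S1.j w + S1.U) with hN1
  set P1 := Pr S1.A' (S1.i q) (S1.i c1) (S1.i c2) (S1.i c3) (S1.j e1) (S1.j e2) (S1.j e3)
    (S1.j w + S1.U) with hP1
  have h1 : (S1.i s * (2 * ((n : R1) + 1)) * N1 ^ n) • P1 = 0 := by
    have e1 : S2.i (S1.i s) * (S2.i (N1 ^ (n + 1)) + 2 * ((n : R2) + 1) * S2.i (N1 ^ n) * S2.e P1) =
        S2.i (S1.i s * N1 ^ (n + 1)) + S2.e ((S1.i s * (2 * ((n : R1) + 1)) * N1 ^ n) • P1) := by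
      rw [← S2.i_mul_e]
      simp only [map_mul, map_add, map_natCast, map_one, map_ofNat]
      ring
    rw [e1] at hyp
    have e2 := congrArg S2.pr hyp
    rwa [map_add, S2.pr_i, S2.pr_e, zero_add, map_zero] at e2
  set N := NN A q c1 c2 c3 e1 e2 e3 w with hN
  set P := Pr A q c1 c2 c3 e1 e2 e3 w with hP
  have h2 : S1.i s * (2 * ((n : R1) + 1)) * N1 ^ n = S1.i (s * (2 * ((n : R) + 1)) * N ^ n) +
      S1.e ((s * (2 * ((n : R) + 1)) * (2 * n) * N ^ (n - 1)) • P) := by
    rw [hN1, S1.NN_ext, S1.pow_ext', ← hN, ← hP, ← S1.i_mul_e]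
    simp only [map_mul, map_add, map_natCast, map_one, map_ofNat]
    ring
  have h3 := congrArg S1.T h1
  rw [h2, S1.T_smul_Pr q c1 c2 c3 e1 e2 e3 w _ _ hρ, map_zero, map_smul, ← hP, hPi,
    smul_eq_mul] at h3
  rcases Nat.eq_zero_or_pos n with hn | hn
  · subst hn
    rw [← h3]
    push_cast
    ring
  · have h4 : N ^ n = N ^ (n - 1) * N := by
      rw [← pow_succ, Nat.sub_add_cancel hn]
    rw [← h3, h4]
    ring

end

end Pool.Agent.Hhelper65.PC
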