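import Pool.Agent.Hhelper65.PC.Zero

/-!
# Part C, step 1: orthogonal triples
-/

namespace Pool.Agent.Hhelper65.PC

open Pool.Agent.Hhelper8

section basic

variable {R V : Type*} [CommRing R] [AddCommGroup V] [Module R V] (A : VPA R V)

lemma anti (x y : V) : A.mul x y = -A.mul y x := by
  have h := A.mul_self (x + y)
  rw [map_add, map_add, LinearMap.add_apply, LinearMap.add_apply, A.mul_self, A.mul_self, zero_add,
    add_zero, add_comm] at h
  exact eq_neg_of_add_eq_zero_left h

lemma inv' (x y z : V) : A.form x (A.mul y z) = A.form (A.mul x y) z := (A.inv x y z).symm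

lemma form_self_right (x y : V) : A.form (A.mul x y) y = 0 := by
  rw [A.inv, A.mul_self, map_zero]

lemma form_self_left (x y : V) : A.form (A.mul x y) x = 0 := by
  rw [A.symm, inv', A.mul_self, map_zero, LinearMap.zero_apply]

lemma mul_mul_self (z x : V) : A.mul (A.mul z x) x = A.form z x • x - A.form x x • z := by
  have h := A.vp x x z
  rw [A.mul_self, map_zero, add_zero] at h
  rw [eq_sub_iff_add_eq, h]
  module

lemma orth {z x y : V} (h1 : A.form z x = 0) (h2 : A.form z y = 0) (h3 : A.form x y = 0) :
    A.mul (A.mul z x) y = -A.mul z (A.mul x y) := by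
  have h := A.vp x y z
  rw [h1, h2, h3] at h
  simp only [zero_smul, smul_zero, add_zero, sub_zero] at h
  exact eq_neg_of_add_eq_zero_left h

end basic

section triple

variable {R V : Type*} [CommRing R] [AddCommGroup V] [Module R V] (A : VPA R V)

/-- the span map of an orthogonal triple -/
noncomputable def span7 (u v w : V) : (Fin 7 → R) →ₗ[R] V where
  toFun x := x 0 • u + x 1 • v + x 2 • A.mul u v + x 3 • w + x 4 • A.mul u w + x 5 • A.mul v w
    + x 6 • A.mul (A.mul u v) w
  map_add' x y := by
    simp only [Pi.add_apply]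
    module
  map_smul' r x := by
    simp only [Pi.smul_apply, smul_eq_mul, RingHom.id_apply]
    module

lemma span7_apply (u v w : V) (x : Fin 7 → R) : span7 A u v w x =
    x 0 • u + x 1 • v + x 2 • A.mul u v + x 3 • w + x 4 • A.mul u w + x 5 • A.mul v w
    + x 6 • A.mul (A.mul u v) w := rfl

variable {u v w : V} (huv : A.form u v = 0) (huw : A.form u w = 0) (hvw : A.form v w = 0)
  (h : A.form (A.mul u v) w = 0)

include huv huw hvw h

lemma table_rel :
    A.mul u (A.mul u v) = -(A.form u u • v) ∧
    A.mul v (A.mul u v) = A.form v v • u ∧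
    A.mul u (A.mul u w) = -(A.form u u • w) ∧
    A.mul u (A.mul v w) = -A.mul (A.mul u v) w ∧
    A.mul u (A.mul (A.mul u v) w) = A.form u u • A.mul v w ∧
    A.mul v (A.mul u w) = A.mul (A.mul u v) w ∧
    A.mul v (A.mul v w) = -(A.form v v • w) ∧
    A.mul v (A.mul (A.mul u v) w) = -(A.form v v • A.mul u w) ∧
    A.mul (A.mul u v) (A.mul u w) = -(A.form u u • A.mul v w) ∧
    A.mul (A.mul u v) (A.mul v w) = A.form v v • A.mul u w ∧
    A.mul (A.mul u v) (A.mul (A.mul u v) w) = -((A.form u u * A.form v v) • w) ∧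
    A.mul w (A.mul u w) = A.form w w • u ∧
    A.mul w (A.mul v w) = A.form w w • v ∧
    A.mul w (A.mul (A.mul u v) w) = A.form w w • A.mul u v ∧
    A.mul (A.mul u w) (A.mul v w) = -(A.form w w • A.mul u v) ∧
    A.mul (A.mul u w) (A.mul (A.mul u v) w) = (A.form u u * A.form w w) • v ∧
    A.mul (A.mul v w) (A.mul (A.mul u v) w) = -((A.form v v * A.form w w) • u) := by
  have hvu : A.form v u = 0 := by rw [A.symm]; exact huv
  have hwu : A.form w u = 0 := by rw [A.symm]; exact huw
  have hwv : A.form w v = 0 := by rw [A.symm]; exact hvw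
  have p1 : A.mul u (A.mul u v) = -(A.form u u • v) := by
    rw [anti, anti A u v, map_neg, LinearMap.neg_apply, mul_mul_self, hvu]
    module
  have p2 : A.mul v (A.mul u v) = A.form v v • u := by
    rw [anti, mul_mul_self, huv]
    module
  have p3 : A.mul u (A.mul u w) = -(A.form u u • w) := by
    rw [anti, anti A u w, map_neg, LinearMap.neg_apply, mul_mul_self, hwu]
    module
  have p4 : A.mul u (A.mul v w) = -A.mul (A.mul u v) w := by
    rw [orth A huv huw hvw, neg_neg]
  have hu_uv : A.form u (A.mul u v) = 0 := by rw [A.symm, form_self_left]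
  have hv_uv : A.form v (A.mul u v) = 0 := by rw [A.symm, form_self_right]
  have p5 : A.mul u (A.mul (A.mul u v) w) = A.form u u • A.mul v w := by
    have := orth A hu_uv huw h
    rw [p1] at this
    rw [map_neg, map_smul, LinearMap.neg_apply, LinearMap.smul_apply, neg_inj] at this
    exact this.symm
  have p6 : A.mul v (A.mul u w) = A.mul (A.mul u v) w := by
    have := orth A hvu hvw huw
    rw [anti A v u, map_neg, LinearMap.neg_apply, neg_inj] at this
    exact this.symm
  have p7 : A.mul v (A.mul v w) = -(A.form v v • w) := by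
    rw [anti, anti A v w, map_neg, LinearMap.neg_apply, mul_mul_self, hwv]
    module
  have p8 : A.mul v (A.mul (A.mul u v) w) = -(A.form v v • A.mul u w) := by
    have := orth A hv_uv hvw h
    rw [p2, map_smul, LinearMap.smul_apply] at this
    rw [this, neg_neg]
  have h_uv_u : A.form (A.mul u v) u = 0 := form_self_left A u v
  have h_uv_v : A.form (A.mul u v) v = 0 := form_self_right A u v
  have q1 : A.mul (A.mul u v) u = A.form u u • v := by
    rw [anti, p1, neg_neg]
  have q2 : A.mul (A.mul u v) v = -(A.form v v • u) := by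
    rw [anti, p2]
  have p9 : A.mul (A.mul u v) (A.mul u w) = -(A.form u u • A.mul v w) := by
    have := orth A h_uv_u h huw
    rw [q1, map_smul, LinearMap.smul_apply] at this
    rw [this, neg_neg]
  have p10 : A.mul (A.mul u v) (A.mul v w) = A.form v v • A.mul u w := by
    have := orth A h_uv_v h hvw
    rw [q2, map_neg, LinearMap.neg_apply, map_smul, LinearMap.smul_apply, neg_inj] at this
    exact this.symm
  have h_uv_uv : A.form (A.mul u v) (A.mul u v) = A.form u u * A.form v v := by
    rw [A.inv, p2, map_smul, smul_eq_mul, mul_comm]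
  have p11 : A.mul (A.mul u v) (A.mul (A.mul u v) w) = -((A.form u u * A.form v v) • w) := by
    rw [anti, anti A (A.mul u v) w, map_neg, LinearMap.neg_apply, mul_mul_self, h_uv_uv,
      A.symm, h]
    module
  have p12 : A.mul w (A.mul u w) = A.form w w • u := by
    rw [anti, mul_mul_self, huw]
    module
  have p13 : A.mul w (A.mul v w) = A.form w w • v := by
    rw [anti, mul_mul_self, hvw]
    module
  have p14 : A.mul w (A.mul (A.mul u v) w) = A.form w w • A.mul u v := by
    rw [anti, mul_mul_self, h]
    module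
  have h_uw_v : A.form (A.mul u w) v = 0 := by
    rw [A.inv, anti A w v, map_neg, inv', h, neg_zero]
  have h_uw_w : A.form (A.mul u w) w = 0 := form_self_right A u w
  have p15 : A.mul (A.mul u w) (A.mul v w) = -(A.form w w • A.mul u v) := by
    have := orth A h_uw_v h_uw_w hvw
    rw [anti A (A.mul u w) v, p6, map_neg, LinearMap.neg_apply, mul_mul_self, h] at this
    rw [← neg_inj, ← this]
    module
  have h_uw_uv : A.form (A.mul u w) (A.mul u v) = 0 := by
    rw [A.symm, inv', q1, map_smul, LinearMap.smul_apply, hvw, smul_zero]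
  have p16 : A.mul (A.mul u w) (A.mul (A.mul u v) w) = (A.form u u * A.form w w) • v := by
    have := orth A h_uw_uv h_uw_w h
    rw [anti A (A.mul u w) (A.mul u v), p9, neg_neg, map_smul, LinearMap.smul_apply, mul_mul_self,
      hvw] at this
    rw [← neg_inj, ← this]
    module
  have h_vw_uv : A.form (A.mul v w) (A.mul u v) = 0 := by
    rw [A.symm, inv', q2, map_neg, map_smul, LinearMap.neg_apply, LinearMap.smul_apply, huw,
      smul_zero, neg_zero]
  have p17 : A.mul (A.mul v w) (A.mul (A.mul u v) w) = -((A.form v v * A.form w w) • u) := by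
    have := orth A h_vw_uv (form_self_right A v w) h
    rw [anti A (A.mul v w) (A.mul u v), p10, map_neg, LinearMap.neg_apply, map_smul,
      LinearMap.smul_apply, mul_mul_self, huw] at this
    rw [← neg_inj, ← this]
    module
  exact ⟨p1, p2, p3, p4, p5, p6, p7, p8, p9, p10, p11, p12, p13, p14, p15, p16, p17⟩

/-- the span map is multiplicative -/
lemma span7_mul (x y : Fin 7 → R) :
    span7 A u v w (tab (A.form u u) (A.form v v) (A.form w w) x y) =
      A.mul (span7 A u v w x) (span7 A u v w y) := by
  obtain ⟨p1, p2, p3, p4, p5, p6, p7, p8, p9, p10, p11, p12, p13, p14, p15, p16, p17⟩ :=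
    table_rel A huv huw hvw h
  have key : ∀ a b : V, A.mul a b = -A.mul b a := anti A
  rw [span7_apply, span7_apply, span7_apply]
  simp only [map_add, map_smul, LinearMap.add_apply, LinearMap.smul_apply]
  rw [A.mul_self u, A.mul_self v, A.mul_self (A.mul u v), A.mul_self w, A.mul_self (A.mul u w),
    A.mul_self (A.mul v w), A.mul_self (A.mul (A.mul u v) w)]
  rw [key v u, key (A.mul u v) u, key (A.mul u v) v, key w u, key w v, key w (A.mul u v),
    key (A.mul u w) u, key (A.mul u w) v, key (A.mul u w) (A.mul u v), key (A.mul u w) w,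
    key (A.mul v w) u, key (A.mul v w) v, key (A.mul v w) (A.mul u v), key (A.mul v w) w,
    key (A.mul v w) (A.mul u w), key (A.mul (A.mul u v) w) u, key (A.mul (A.mul u v) w) v,
    key (A.mul (A.mul u v) w) (A.mul u v), key (A.mul (A.mul u v) w) w,
    key (A.mul (A.mul u v) w) (A.mul u w), key (A.mul (A.mul u v) w) (A.mul v w)]
  rw [p1, p2, p3, p4, p5, p6, p7, p8, p9, p10, p11, p12, p13, p14, p15, p16, p17]
  simp only [tab, Matrix.cons_val]
  module

lemma gram_rel :
    A.form u (A.mul u v) = 0 ∧ A.form u (A.mul u w) = 0 ∧ A.form u (A.mul v w) = 0 ∧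
    A.form u (A.mul (A.mul u v) w) = 0 ∧
    A.form v (A.mul u v) = 0 ∧ A.form v (A.mul u w) = 0 ∧ A.form v (A.mul v w) = 0 ∧
    A.form v (A.mul (A.mul u v) w) = 0 ∧
    A.form (A.mul u v) (A.mul u v) = A.form u u * A.form v v ∧
    A.form (A.mul u v) (A.mul u w) = 0 ∧ A.form (A.mul u v) (A.mul v w) = 0 ∧
    A.form (A.mul u v) (A.mul (A.mul u v) w) = 0 ∧
    A.form w (A.mul u w) = 0 ∧ A.form w (A.mul v w) = 0 ∧
    A.form w (A.mul (A.mul u v) w) = 0 ∧
    A.form (A.mul u w) (A.mul u w) = A.form u u * A.form w w ∧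
    A.form (A.mul u w) (A.mul v w) = 0 ∧
    A.form (A.mul u w) (A.mul (A.mul u v) w) = 0 ∧
    A.form (A.mul v w) (A.mul v w) = A.form v v * A.form w w ∧
    A.form (A.mul v w) (A.mul (A.mul u v) w) = 0 ∧
    A.form (A.mul (A.mul u v) w) (A.mul (A.mul u v) w) =
      A.form u u * A.form v v * A.form w w := by
  obtain ⟨p1, p2, p3, p4, p5, p6, p7, p8, p9, p10, p11, p12, p13, p14, p15, p16, p17⟩ :=
    table_rel A huv huw hvw h
  have hvu : A.form v u = 0 := by rw [A.symm]; exact huv
  have q1 : A.mul (A.mul u v) u = A.form u u • v := by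
    rw [anti, p1, neg_neg]
  have q2 : A.mul (A.mul u v) v = -(A.form v v • u) := by
    rw [anti, p2]
  have g9 : A.form (A.mul u v) (A.mul u v) = A.form u u * A.form v v := by
    rw [A.inv, p2, map_smul, smul_eq_mul, mul_comm]
  have g5 : A.form v (A.mul u v) = 0 := by rw [A.symm, form_self_right]
  have g1 : A.form u (A.mul u v) = 0 := by rw [A.symm, form_self_left]
  refine ⟨g1, by rw [A.symm, form_self_left], by rw [inv', h], ?_,
    g5, ?_, by rw [A.symm, form_self_left], ?_, g9, ?_, ?_,
    by rw [A.symm, form_self_left], by rw [A.symm, form_self_right],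
    by rw [A.symm, form_self_right], by rw [A.symm, form_self_right], ?_, ?_, ?_, ?_, ?_, ?_⟩
  · rw [inv', p1, map_neg, map_smul, LinearMap.neg_apply, LinearMap.smul_apply, hvw, smul_zero,
      neg_zero]
  · rw [inv', anti A v u, map_neg, LinearMap.neg_apply, h, neg_zero]
  · rw [inv', p2, map_smul, LinearMap.smul_apply, huw, smul_zero]
  · rw [inv', q1, map_smul, LinearMap.smul_apply, hvw, smul_zero]
  · rw [inv', q2, map_neg, map_smul, LinearMap.neg_apply, LinearMap.smul_apply, huw,
      smul_zero, neg_zero]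
  · rw [A.inv, p12, map_smul, smul_eq_mul, mul_comm]
  · rw [A.inv, p13, map_smul, huv, smul_zero]
  · rw [A.inv, p14, map_smul, g1, smul_zero]
  · rw [A.inv, p13, map_smul, smul_eq_mul, mul_comm]
  · rw [A.inv, p14, map_smul, g5, smul_zero]
  · rw [A.inv, p14, map_smul, g9, smul_eq_mul, mul_comm]

/-- a vector orthogonal to the whole triple is killed by the product of the norms -/
lemma kill (h2 : ∀ x : V, (2 : R) • x = 0 → x = 0) {y : V} (h0 : A.form y u = 0)
    (h1 : A.form y v = 0) (h01 : A.form y (A.mul u v) = 0) (hw : A.form y w = 0)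
    (h0w : A.form y (A.mul u w) = 0) (h1w : A.form y (A.mul v w) = 0)
    (h01w : A.form y (A.mul (A.mul u v) w) = 0) :
    (A.form u u * A.form v v * A.form w w) • y = 0 := by
  obtain ⟨g1, g2, g3, g4, g5, g6, g7, g8, g9, g10, g11, g12, g13, g14, g15, g16, g17, g18, g19,
    g20, g21⟩ := gram_rel A huv huw hvw h
  obtain ⟨p1, p2, p3, p4, p5, p6, p7, p8, p9, p10, p11, p12, p13, p14, p15, p16, p17⟩ :=
    table_rel A huv huw hvw h
  have e1 : A.mul y (A.mul u (A.mul v w)) = -A.mul (A.mul y u) (A.mul v w) := by
    rw [orth A h0 h1w g3, neg_neg]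
  have e2 : A.mul (A.mul y u) (A.mul v w) = -A.mul (A.mul (A.mul y u) v) w := by
    rw [orth A (by rw [A.inv, h01]) (by rw [A.inv, h0w]) hvw, neg_neg]
  have e3 : A.mul (A.mul y u) v = -A.mul y (A.mul u v) := orth A h0 h1 huv
  have e4 : A.mul (A.mul y (A.mul u v)) w = -A.mul y (A.mul (A.mul u v) w) := orth A h01 hw h
  have e5 : A.mul y (A.mul u (A.mul v w)) = A.mul y (A.mul (A.mul u v) w) := by
    rw [e1, e2, neg_neg, e3, map_neg, LinearMap.neg_apply, e4, neg_neg]
  rw [p4, map_neg] at e5
  have e6 : A.mul y (A.mul (A.mul u v) w) = 0 := by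
    apply h2
    rw [two_smul]
    nth_rewrite 1 [← e5]
    exact neg_add_cancel _
  have e7 := mul_mul_self A y (A.mul (A.mul u v) w)
  rw [e6, map_zero, LinearMap.zero_apply, h01w, zero_smul, zero_sub, g21] at e7
  rw [← neg_eq_zero]
  exact e7.symm

/-- the square of the product of the norms maps `V` to the span of the triple -/
lemma exists_span7 (h2 : ∀ x : V, (2 : R) • x = 0 → x = 0) (x : V) :
    ∃ r : Fin 7 → R, (A.form u u * A.form v v * A.form w w) ^ 2 • x = span7 A u v w r := by
  obtain ⟨g1, g2, g3, g4, g5, g6, g7, g8, g9, g10, g11, g12, g13, g14, g15, g16, g17, g18, g19,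
    g20, g21⟩ := gram_rel A huv huw hvw h
  set a := A.form u u with ha
  set b := A.form v v with hb
  set c := A.form w w with hc
  set y : V := (a * b * c) • x - ((b * c * A.form x u) • u + (a * c * A.form x v) • v +
    (c * A.form x (A.mul u v)) • A.mul u v + (a * b * A.form x w) • w +
    (b * A.form x (A.mul u w)) • A.mul u w + (a * A.form x (A.mul v w)) • A.mul v w +
    (A.form x (A.mul (A.mul u v) w)) • A.mul (A.mul u v) w) with hy
  have s : ∀ p q : V, A.form p q = A.form q p := A.symm
  have hy' : ∀ z : V, A.form y z = (a * b * c) * A.form x z - ((b * c * A.form x u) * A.form u z +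
      (a * c * A.form x v) * A.form v z +
      (c * A.form x (A.mul u v)) * A.form (A.mul u v) z + (a * b * A.form x w) * A.form w z +
      (b * A.form x (A.mul u w)) * A.form (A.mul u w) z +
      (a * A.form x (A.mul v w)) * A.form (A.mul v w) z +
      (A.form x (A.mul (A.mul u v) w)) * A.form (A.mul (A.mul u v) w) z) := by
    intro z
    rw [hy]
    simp only [map_sub, map_add, map_smul, LinearMap.sub_apply, LinearMap.add_apply,
      LinearMap.smul_apply, smul_eq_mul]
  have hvu : A.form v u = 0 := by rw [s]; exact huv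
  have hwu : A.form w u = 0 := by rw [s]; exact huw
  have hwv : A.form w v = 0 := by rw [s]; exact hvw
  have h' : A.form w (A.mul u v) = 0 := by rw [s]; exact h
  have t1 : A.form (A.mul u v) u = 0 := by rw [s]; exact g1
  have t2 : A.form (A.mul u w) u = 0 := by rw [s]; exact g2
  have t3 : A.form (A.mul v w) u = 0 := by rw [s]; exact g3
  have t4 : A.form (A.mul (A.mul u v) w) u = 0 := by rw [s]; exact g4
  have t5 : A.form (A.mul u v) v = 0 := by rw [s]; exact g5
  have t6 : A.form (A.mul u w) v = 0 := by rw [s]; exact g6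
  have t7 : A.form (A.mul v w) v = 0 := by rw [s]; exact g7
  have t8 : A.form (A.mul (A.mul u v) w) v = 0 := by rw [s]; exact g8
  have t10 : A.form (A.mul u w) (A.mul u v) = 0 := by rw [s]; exact g10
  have t11 : A.form (A.mul v w) (A.mul u v) = 0 := by rw [s]; exact g11
  have t12 : A.form (A.mul (A.mul u v) w) (A.mul u v) = 0 := by rw [s]; exact g12
  have t13 : A.form (A.mul u w) w = 0 := by rw [s]; exact g13
  have t14 : A.form (A.mul v w) w = 0 := by rw [s]; exact g14
  have t15 : A.form (A.mul (A.mul u v) w) w = 0 := by rw [s]; exact g15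
  have t17 : A.form (A.mul v w) (A.mul u w) = 0 := by rw [s]; exact g17
  have t18 : A.form (A.mul (A.mul u v) w) (A.mul u w) = 0 := by rw [s]; exact g18
  have t20 : A.form (A.mul (A.mul u v) w) (A.mul v w) = 0 := by rw [s]; exact g20
  have hk := kill A huv huw hvw h h2 (y := y)
    (by rw [hy', hvu, t1, hwu, t2, t3, t4, ← ha]; ring)
    (by rw [hy', huv, t5, hwv, t6, t7, t8, ← hb]; ring)
    (by rw [hy', g1, g5, g9, h', t10, t11, t12]; ring)
    (by rw [hy', huw, hvw, h, t13, t14, t15, ← hc]; ring)
    (by rw [hy', g2, g6, g10, g13, g16, t17, t18]; ring)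
    (by rw [hy', g3, g7, g11, g14, g17, g19, t20]; ring)
    (by rw [hy', g4, g8, g12, g15, g18, g20, g21]; ring)
  rw [← ha, ← hb, ← hc] at hk
  refine ⟨![(a * b * c) * (b * c * A.form x u), (a * b * c) * (a * c * A.form x v),
    (a * b * c) * (c * A.form x (A.mul u v)), (a * b * c) * (a * b * A.form x w),
    (a * b * c) * (b * A.form x (A.mul u w)), (a * b * c) * (a * A.form x (A.mul v w)),
    (a * b * c) * (A.form x (A.mul (A.mul u v) w))], ?_⟩
  rw [hy] at hk
  rw [span7_apply]
  simp only [Matrix.cons_val]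
  rw [← sub_eq_zero, ← hk]
  module

end triple

/-- **Step 1** -/
theorem step1 {F R V ι : Type*} [Field F] [CharZero F] [CommRing R] [Algebra F R]
    [AddCommGroup V] [Module R V] (A : VPA R V) [Fintype ι] [DecidableEq ι]
    {f : FreeMagma ι →₀ F} (hf : ∀ w ∈ f.support, MLin w)
    (hvan : ∀ (a b c : R) (v : ι → (Fin 7 → R)), evP R (tab a b c) f v = 0)
    {u v w : V} (huv : A.form u v = 0) (huw : A.form u w = 0) (hvw : A.form v w = 0)
    (h : A.form (A.mul u v) w = 0) (x : ι → V) :
    (A.form u u * A.form v v * A.form w w) ^ (2 * Fintype.card ι) •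
      evP R (fun x y => A.mul x y) f x = 0 := by
  have h2 : ∀ x : V, (2 : R) • x = 0 → x = 0 := by
    intro x hx
    have e : (1 : R) = algebraMap F R (1 / 2) * 2 := by
      have : (2 : R) = algebraMap F R 2 := (map_ofNat (algebraMap F R) 2).symm
      rw [this, ← map_mul]
      norm_num
    rw [← one_smul R x, e, mul_smul, hx, smul_zero]
  choose r hr using exists_span7 A huv huw hvw h h2
  rw [pow_mul, ← evP_smul A hf]
  have hfun : (fun i => (A.form u u * A.form v v * A.form w w) ^ 2 • x i) =
      fun i => span7 A u v w (r (x i)) := by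
    funext i
    exact hr (x i)
  rw [hfun]
  have := evP_map (F := F) (RingHom.id R) (fun c => rfl) (span7 A u v w).toAddMonoidHom
    (fun s y => map_smul (span7 A u v w) s y)
    (tab (A.form u u) (A.form v v) (A.form w w)) (fun x y => A.mul x y)
    (fun x y => span7_mul A huv huw hvw h x y) f (fun i => r (x i))
  rw [hvan, map_zero] at this
  exact this.symm

end Pool.Agent.Hhelper65.PC
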