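import Pool.Agent.Hhelper65.PC.Sq

/-!
# Part C, step 2: the extension `Sq V`, module structure and the algebra
-/

set_option linter.unusedSectionVars false

namespace Pool.Agent.Hhelper65.PC

open Pool.Agent.Hhelper8

universe u

section

variable {R V : Type*} [CommRing R] [AddCommGroup V] [Module R V] (A : VPA R V)

/-- the underlying group of `Sq V` -/
def VPl (A : VPA R V) := V × ↥(MM A)

namespace VPl

variable {A}

instance : AddCommGroup (VPl A) := inferInstanceAs (AddCommGroup (V × ↥(MM A)))

/-- the `EE`-component -/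
def snd' (x : VPl A) : EE R V := x.2.1

lemma ext {x y : VPl A} (h1 : x.1 = y.1) (h2 : snd' x = snd' y) : x = y :=
  Prod.ext h1 (Subtype.ext h2)

/-- constructor -/
def mk (v : V) (m : EE R V) (hm : m ∈ MM A) : VPl A := (v, ⟨m, hm⟩)

@[simp] lemma mk_1 (v : V) (m : EE R V) (hm : m ∈ MM A) : (mk v m hm : VPl A).1 = v := rfl
@[simp] lemma mk_2 (v : V) (m : EE R V) (hm : m ∈ MM A) : snd' (mk v m hm : VPl A) = m := rfl
@[simp] lemma add_1 (x y : VPl A) : (x + y).1 = x.1 + y.1 := rfl
@[simp] lemma add_2 (x y : VPl A) : snd' (x + y) = snd' x + snd' y := rfl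
@[simp] lemma zero_1 : (0 : VPl A).1 = 0 := rfl
@[simp] lemma zero_2 : snd' (0 : VPl A) = 0 := rfl

lemma mem_2 (x : VPl A) : snd' x ∈ MM A := x.2.2

noncomputable instance : SMul (RP R V) (VPl A) := ⟨fun r x => mk (r.1 • x.1) (r.1 • snd' x + XX A x.1 r.2)
  (add_mem (Submodule.smul_mem _ _ (mem_2 x)) (XX_mem A _ _))⟩

@[simp] lemma smul_1 (r : RP R V) (x : VPl A) : (r • x).1 = r.1 • x.1 := rfl
@[simp] lemma smul_2 (r : RP R V) (x : VPl A) : snd' (r • x) = r.1 • snd' x + XX A x.1 r.2 := rfl

noncomputable instance : Module (RP R V) (VPl A) where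
  one_smul x := by
    apply ext
    · rw [smul_1, RP.one_fst, one_smul]
    · rw [smul_2, RP.one_fst, RP.one_snd, map_zero, one_smul, add_zero]
  mul_smul r s x := by
    apply ext
    · rw [smul_1, smul_1, smul_1, RP.mul_fst, mul_smul]
    · rw [smul_2, smul_2, smul_2, smul_1, RP.mul_fst, RP.mul_snd, map_add, map_smul, map_smul,
        map_smul, LinearMap.smul_apply]
      module
  smul_zero r := by
    apply ext
    · rw [smul_1, zero_1, smul_zero]
    · rw [smul_2, zero_1, zero_2, map_zero, LinearMap.zero_apply, smul_zero, add_zero]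
  smul_add r x y := by
    apply ext
    · simp only [smul_1, add_1, smul_add]
    · simp only [smul_2, add_1, add_2, smul_add, map_add, LinearMap.add_apply]
      abel
  add_smul r s x := by
    apply ext
    · simp only [smul_1, add_1, RP.add_fst, add_smul]
    · simp only [smul_2, add_2, RP.add_fst, RP.add_snd, add_smul, map_add]
      abel
  zero_smul x := by
    apply ext
    · rw [smul_1, RP.zero_fst, zero_smul, zero_1]
    · rw [smul_2, RP.zero_fst, RP.zero_snd, zero_smul, map_zero, add_zero, zero_2]

end VPl

open VPl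

/-- the product of `Sq V` -/
noncomputable def mulP (x y : VPl A) : VPl A := mk (A.mul x.1 y.1) (act A (snd' x) y.1 - act A (snd' y) x.1)
  (sub_mem (act_mem A (mem_2 x) _) (act_mem A (mem_2 y) _))

@[simp] lemma mulP_1 (x y : VPl A) : (mulP A x y).1 = A.mul x.1 y.1 := rfl
@[simp] lemma mulP_2 (x y : VPl A) :
    snd' (mulP A x y) = act A (snd' x) y.1 - act A (snd' y) x.1 := rfl

/-- the form of `Sq V` -/
noncomputable def formP (x y : VPl A) : RP R V := (A.form x.1 y.1, (snd' x).1 y.1 + (snd' y).1 x.1)

@[simp] lemma formP_1 (x y : VPl A) : (formP A x y).1 = A.form x.1 y.1 := rfl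
@[simp] lemma formP_2 (x y : VPl A) : (formP A x y).2 = (snd' x).1 y.1 + (snd' y).1 x.1 := rfl

/-- the extension -/
noncomputable def SqA : VPA (RP R V) (VPl A) where
  mul := LinearMap.mk₂ (RP R V) (mulP A)
    (by
      intro x x' y
      apply VPl.ext
      · simp
      · simp only [mulP_2, add_1, add_2, map_add, LinearMap.add_apply]
        abel)
    (by
      intro r x y
      apply VPl.ext
      · simp
      · simp only [mulP_2, mulP_1, smul_1, smul_2, map_add, LinearMap.add_apply, map_smul,
          LinearMap.smul_apply, act_XX, smul_sub]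
        abel)
    (by
      intro x y y'
      apply VPl.ext
      · simp
      · simp only [mulP_2, add_1, add_2, map_add, LinearMap.add_apply]
        abel)
    (by
      intro r x y
      apply VPl.ext
      · simp
      · simp only [mulP_2, mulP_1, smul_1, smul_2, map_add, LinearMap.add_apply, map_smul,
          LinearMap.smul_apply, act_XX, smul_sub]
        rw [anti A x.1 y.1, map_neg, LinearMap.neg_apply]
        abel)
  form := LinearMap.mk₂ (RP R V) (formP A)
    (by
      intro x x' y
      apply RP.ext
      · simp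
      · simp only [formP_2, add_1, add_2, Prod.fst_add, LinearMap.add_apply, map_add, RP.add_snd]
        abel)
    (by
      intro r x y
      apply RP.ext
      · simp
      · simp only [formP_2, formP_1, smul_1, smul_2, Prod.fst_add, LinearMap.add_apply,
          Prod.smul_fst, LinearMap.smul_apply, XX_1, map_smul, smul_eq_mul, RP.mul_snd]
        module)
    (by
      intro x y y'
      apply RP.ext
      · simp
      · simp only [formP_2, add_1, add_2, Prod.fst_add, LinearMap.add_apply, map_add, RP.add_snd]
        abel)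
    (by
      intro r x y
      apply RP.ext
      · simp
      · simp only [formP_2, formP_1, smul_1, smul_2, Prod.fst_add, LinearMap.add_apply,
          Prod.smul_fst, LinearMap.smul_apply, XX_1, map_smul, smul_eq_mul, RP.mul_snd]
        rw [A.symm y.1 x.1]
        module)
  mul_self x := by
    show mulP A x x = 0
    apply VPl.ext
    · rw [mulP_1, A.mul_self, zero_1]
    · rw [mulP_2, sub_self, zero_2]
  symm x y := by
    show formP A x y = formP A y x
    apply RP.ext
    · rw [formP_1, formP_1, A.symm]
    · rw [formP_2, formP_2, add_comm]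
  inv x y z := by
    show formP A (mulP A x y) z = formP A x (mulP A y z)
    apply RP.ext
    · rw [formP_1, formP_1, mulP_1, mulP_1, A.inv]
    · rw [formP_2, formP_2, mulP_1, mulP_1, mulP_2, mulP_2, Prod.fst_sub, Prod.fst_sub,
        LinearMap.sub_apply, LinearMap.sub_apply, act_1, act_1, act_1, act_1, anti A z.1 x.1,
        anti A y.1 x.1, map_neg, map_neg]
      abel
  vp x y z := by
    show mulP A (mulP A z x) y + mulP A z (mulP A x y) + formP A x y • z =
      (2 : RP R V) • formP A z y • x - formP A z x • y
    have h21 : (2 : RP R V).1 = 2 := by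
      have : (2 : RP R V) = 1 + 1 := by norm_num
      rw [this, RP.add_fst, RP.one_fst]
      norm_num
    have h22 : (2 : RP R V).2 = 0 := by
      have : (2 : RP R V) = 1 + 1 := by norm_num
      rw [this, RP.add_snd, RP.one_snd, add_zero]
    rw [sub_eq_add_neg]
    have hneg1 : ∀ t : VPl A, (-t).1 = -t.1 := fun t => rfl
    have hneg2 : ∀ t : VPl A, snd' (-t) = -snd' t := fun t => rfl
    apply VPl.ext
    · simp only [add_1, mulP_1, smul_1, formP_1, h21, hneg1]
      rw [← sub_eq_add_neg]
      exact A.vp _ _ _
    · simp only [add_2, mulP_2, mulP_1, smul_1, smul_2, formP_1, formP_2, h21, h22, hneg2, map_zero,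
        add_zero, map_sub, LinearMap.sub_apply, map_add]
      have hm := (mem_2 z).1 x.1 y.1
      have hn1 := (mem_2 x).1 z.1 y.1
      have hn2 := (mem_2 x).1 y.1 z.1
      have hk := (mem_2 y).1 x.1 z.1
      rw [anti A y.1 z.1, A.symm y.1 z.1, map_neg] at hn2
      rw [A.symm x.1 z.1, anti A x.1 z.1, map_neg] at hk
      linear_combination (norm := module) hm - hn1 - hn2 + hk

end

end Pool.Agent.Hhelper65.PC
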