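import Pool.Agent.Hhelper8.Defs

/-!
# Part C, step 0: naturality of evaluation, homogeneity, all table algebras
-/

namespace Pool.Agent.Hhelper65.PC

open Pool.Agent.Hhelper8

universe u

section nat

variable {ι V W : Type*}

lemma evW_map (m : V → V → V) (m' : W → W → W) (ψ : V → W)
    (h : ∀ x y, ψ (m x y) = m' (ψ x) (ψ y)) (v : ι → V) (w : FreeMagma ι) :
    ψ (evW m v w) = evW m' (fun i => ψ (v i)) w := by
  induction w with
  | ih1 i => rfl
  | ih2 a b ha hb =>
    show ψ (m (evW m v a) (evW m v b)) = m' _ _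
    rw [h, ha, hb]

lemma evP_map {F R S : Type*} [CommSemiring F] [CommRing R] [CommRing S] [Algebra F R]
    [Algebra F S] [AddCommGroup V] [Module R V] [AddCommGroup W] [Module S W] (φ : R →+* S)
    (hφ : ∀ c : F, φ (algebraMap F R c) = algebraMap F S c) (ψ : V →+ W)
    (hψ : ∀ (r : R) x, ψ (r • x) = φ r • ψ x) (m : V → V → V) (m' : W → W → W)
    (h : ∀ x y, ψ (m x y) = m' (ψ x) (ψ y)) (f : FreeMagma ι →₀ F) (v : ι → V) :
    ψ (evP R m f v) = evP S m' f (fun i => ψ (v i)) := by
  unfold evP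
  rw [Finsupp.sum, Finsupp.sum, map_sum]
  refine Finset.sum_congr rfl (fun w _ => ?_)
  rw [hψ, hφ, evW_map m m' ψ h]

lemma length_eq_sum_cnt [Fintype ι] [DecidableEq ι] (w : FreeMagma ι) :
    w.length = ∑ i, cnt i w := by
  induction w with
  | ih1 j =>
    show 1 = ∑ i, (if j = i then 1 else 0)
    simp
  | ih2 a b ha hb =>
    show a.length + b.length = ∑ i, (cnt i a + cnt i b)
    rw [Finset.sum_add_distrib, ha, hb]

lemma length_of_MLin [Fintype ι] [DecidableEq ι] {w : FreeMagma ι} (hw : MLin w) :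
    w.length = Fintype.card ι := by
  rw [length_eq_sum_cnt, Finset.sum_congr rfl (fun i _ => hw i)]
  simp

variable {R : Type*} [CommRing R] [AddCommGroup V] [Module R V]

lemma evW_smul (A : VPA R V) (s : R) (v : ι → V) (w : FreeMagma ι) :
    evW (fun x y => A.mul x y) (fun i => s • v i) w =
      s ^ w.length • evW (fun x y => A.mul x y) v w := by
  induction w with
  | ih1 i =>
    show s • v i = s ^ 1 • v i
    rw [pow_one]
  | ih2 a b ha hb =>
    show A.mul (evW _ _ a) (evW _ _ b) = s ^ (a.length + b.length) •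
      A.mul (evW _ _ a) (evW _ _ b)
    rw [ha, hb, map_smul, map_smul, LinearMap.smul_apply, smul_smul, pow_add, mul_comm]

lemma evP_smul {F : Type*} [CommSemiring F] [Algebra F R] [Fintype ι] [DecidableEq ι]
    (A : VPA R V) {f : FreeMagma ι →₀ F} (hf : ∀ w ∈ f.support, MLin w) (s : R) (v : ι → V) :
    evP R (fun x y => A.mul x y) f (fun i => s • v i) =
      s ^ Fintype.card ι • evP R (fun x y => A.mul x y) f v := by
  unfold evP
  rw [Finsupp.sum, Finsupp.sum, Finset.smul_sum]
  refine Finset.sum_congr rfl (fun w hw => ?_)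
  rw [evW_smul, length_of_MLin (hf w hw), smul_comm]

end nat

section table

lemma tab_map {R S : Type*} [CommRing R] [CommRing S] (φ : R →+* S) (a b c : R)
    (x y : Fin 7 → R) :
    (fun i => φ (tab a b c x y i)) = tab (φ a) (φ b) (φ c) (fun i => φ (x i)) (fun i => φ (y i)) := by
  funext i
  fin_cases i <;> simp [tab]

/-- the diagonal scaling -/
def scal {F : Type*} [Field F] (α β γ : F) (x : Fin 7 → F) : Fin 7 → F :=
  ![α * x 0, β * x 1, α * β * x 2, γ * x 3, α * γ * x 4, β * γ * x 5, α * β * γ * x 6]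

lemma scal_tab {F : Type*} [Field F] (a b c α β γ : F) (x y : Fin 7 → F) :
    scal α β γ (tab (a * α ^ 2) (b * β ^ 2) (c * γ ^ 2) x y) =
      tab a b c (scal α β γ x) (scal α β γ y) := by
  funext i
  fin_cases i <;> simp [tab, scal] <;> ring

/-- `scal` as an additive map -/
def scalHom {F : Type*} [Field F] (α β γ : F) : (Fin 7 → F) →+ (Fin 7 → F) where
  toFun := scal α β γ
  map_zero' := by funext i; fin_cases i <;> simp [scal]
  map_add' x y := by funext i; fin_cases i <;> simp [scal, mul_add]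

lemma scal_injective {F : Type*} [Field F] {α β γ : F} (hα : α ≠ 0) (hβ : β ≠ 0) (hγ : γ ≠ 0)
    {x : Fin 7 → F} (h : scal α β γ x = 0) : x = 0 := by
  have h0 := congrFun h 0
  have h1 := congrFun h 1
  have h2 := congrFun h 2
  have h3 := congrFun h 3
  have h4 := congrFun h 4
  have h5 := congrFun h 5
  have h6 := congrFun h 6
  simp [scal, hα, hβ, hγ] at h0 h1 h2 h3 h4 h5 h6
  funext i
  fin_cases i <;> assumption

lemma vanish_scaled {F : Type*} [Field F] {ι : Type*} (f : FreeMagma ι →₀ F) {a0 b0 c0 : F}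
    (h : ∀ v : ι → (Fin 7 → F), evP F (tab a0 b0 c0) f v = 0) {α β γ : F} (hα : α ≠ 0)
    (hβ : β ≠ 0) (hγ : γ ≠ 0) (v : ι → (Fin 7 → F)) :
    evP F (tab (a0 * α ^ 2) (b0 * β ^ 2) (c0 * γ ^ 2)) f v = 0 := by
  apply scal_injective hα hβ hγ
  have := evP_map (F := F) (RingHom.id F) (fun c => rfl) (scalHom α β γ) (by
    intro r x
    funext i
    fin_cases i <;> simp [scalHom, scal] <;> ring)
    (tab (a0 * α ^ 2) (b0 * β ^ 2) (c0 * γ ^ 2)) (tab a0 b0 c0)
    (fun x y => scal_tab a0 b0 c0 α β γ x y) f v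
  exact this.trans (h _)

/-- **Step 0** -/
theorem vanish_all {F : Type*} [Field F] [CharZero F] {ι : Type*} (f : FreeMagma ι →₀ F)
    {a0 b0 c0 : F} (ha : a0 ≠ 0) (hb : b0 ≠ 0) (hc : c0 ≠ 0)
    (h : ∀ v : ι → (Fin 7 → F), evP F (tab a0 b0 c0) f v = 0)
    {R : Type*} [CommRing R] [Algebra F R] (a b c : R) (v : ι → (Fin 7 → R)) :
    evP R (tab a b c) f v = 0 := by
  classical
  let Pol := MvPolynomial (Fin 3 ⊕ (ι × Fin 7)) F
  let X0 : Pol := MvPolynomial.X (Sum.inl 0)
  let X1 : Pol := MvPolynomial.X (Sum.inl 1)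
  let X2 : Pol := MvPolynomial.X (Sum.inl 2)
  let g : ι → (Fin 7 → Pol) := fun i k => MvPolynomial.X (Sum.inr (i, k))
  -- naturality
  have hnat : ∀ (φ : Pol →ₐ[F] R) (k : Fin 7),
      φ (evP Pol (tab X0 X1 X2) f g k) =
        evP R (tab (φ X0) (φ X1) (φ X2)) f (fun i k => φ (g i k)) k := by
    intro φ k
    have := evP_map (F := F) (φ : Pol →+* R) (fun c => φ.commutes c)
      (AddMonoidHom.mk' (fun x : Fin 7 → Pol => fun i => φ (x i))
        (fun x y => by funext i; simp)) (by
          intro r x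
          funext i
          simp) (tab X0 X1 X2) (tab (φ X0) (φ X1) (φ X2)) (fun x y => tab_map (φ : Pol →+* R) _ _ _ x y)
          f g
    exact congrFun this k
  have hnat' : ∀ (φ : Pol →ₐ[F] F) (k : Fin 7),
      φ (evP Pol (tab X0 X1 X2) f g k) =
        evP F (tab (φ X0) (φ X1) (φ X2)) f (fun i k => φ (g i k)) k := by
    intro φ k
    have := evP_map (F := F) (φ : Pol →+* F) (fun c => φ.commutes c)
      (AddMonoidHom.mk' (fun x : Fin 7 → Pol => fun i => φ (x i))
        (fun x y => by funext i; simp)) (by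
          intro r x
          funext i
          simp) (tab X0 X1 X2) (tab (φ X0) (φ X1) (φ X2)) (fun x y => tab_map (φ : Pol →+* F) _ _ _ x y)
          f g
    exact congrFun this k
  have hzero : ∀ k, evP Pol (tab X0 X1 X2) f g k = 0 := by
    intro k
    apply MvPolynomial.funext_set (fun t : Fin 3 ⊕ (ι × Fin 7) => match t with
      | Sum.inl 0 => {y : F | ∃ α : F, α ≠ 0 ∧ y = a0 * α ^ 2}
      | Sum.inl 1 => {y : F | ∃ α : F, α ≠ 0 ∧ y = b0 * α ^ 2}
      | Sum.inl 2 => {y : F | ∃ α : F, α ≠ 0 ∧ y = c0 * α ^ 2}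
      | Sum.inr _ => Set.univ)
    · have hinf : ∀ d : F, d ≠ 0 → {y : F | ∃ α : F, α ≠ 0 ∧ y = d * α ^ 2}.Infinite := by
        intro d hd
        apply Set.infinite_of_injective_forall_mem (f := fun n : ℕ => d * ((n : F) + 1) ^ 2)
        · intro m n hmn
          have h1 := mul_left_cancel₀ hd hmn
          have h2 : (((m + 1) ^ 2 : ℕ) : F) = (((n + 1) ^ 2 : ℕ) : F) := by
            push_cast
            exact h1
          have h3 : (m + 1) ^ 2 = (n + 1) ^ 2 := by exact_mod_cast h2
          have h4 := Nat.pow_left_injective (n := 2) (by norm_num) h3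
          omega
        · intro n
          exact ⟨(n : F) + 1, by exact_mod_cast Nat.succ_ne_zero n, rfl⟩
      rintro (t | t)
      · fin_cases t
        · exact hinf a0 ha
        · exact hinf b0 hb
        · exact hinf c0 hc
      · exact Set.infinite_univ
    · intro y hy
      rw [map_zero]
      have h0 := hy (Sum.inl 0) trivial
      have h1 := hy (Sum.inl 1) trivial
      have h2 := hy (Sum.inl 2) trivial
      obtain ⟨α, hα, hα'⟩ := h0
      obtain ⟨β, hβ, hβ'⟩ := h1
      obtain ⟨γ, hγ, hγ'⟩ := h2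
      have h3 := hnat' (MvPolynomial.aeval y) k
      have e0 : (MvPolynomial.aeval y) X0 = a0 * α ^ 2 := by
        rw [← hα']; exact MvPolynomial.aeval_X _ _
      have e1 : (MvPolynomial.aeval y) X1 = b0 * β ^ 2 := by
        rw [← hβ']; exact MvPolynomial.aeval_X _ _
      have e2 : (MvPolynomial.aeval y) X2 = c0 * γ ^ 2 := by
        rw [← hγ']; exact MvPolynomial.aeval_X _ _
      rw [e0, e1, e2, vanish_scaled f h hα hβ hγ] at h3
      rw [← MvPolynomial.coe_aeval_eq_eval]
      exact h3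
  funext k
  let y : Fin 3 ⊕ (ι × Fin 7) → R := Sum.elim ![a, b, c] (fun t => v t.1 t.2)
  have h4 := hnat (MvPolynomial.aeval y) k
  have e0 : (MvPolynomial.aeval y) X0 = a := by
    exact MvPolynomial.aeval_X _ _
  have e1 : (MvPolynomial.aeval y) X1 = b := by
    exact MvPolynomial.aeval_X _ _
  have e2 : (MvPolynomial.aeval y) X2 = c := by
    exact MvPolynomial.aeval_X _ _
  have e3 : (fun i k => (MvPolynomial.aeval y) (g i k)) = v := by
    funext i k
    exact MvPolynomial.aeval_X _ _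
  rw [hzero, map_zero, e0, e1, e2, e3] at h4
  exact h4.symm

end table

end Pool.Agent.Hhelper65.PC
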